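import Pool.Agent.Lib.MP_102345_an.Refl

set_option autoImplicit false

namespace Pool.Agent.Lib.MP_102345_an

open scoped ENNReal
open Filter Topology

/-- A quadratic asymptotic smoothness estimate. -/
def Q (Y : Type) [NormedAddCommGroup Y] [NormedSpace ℝ Y] : Prop :=
  ∀ (x : Y) (η : ℝ), 0 < η → ∃ S : Set (StrongDual ℝ Y), S.Finite ∧
    ∀ y : Y, (∀ g ∈ S, g y = 0) → ‖x + y‖ ^ 2 ≤ ‖x‖ ^ 2 + (1 + η) * ‖y‖ ^ 2 + η

lemma q_real : Q ℝ := by
  intro x η hη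
  refine ⟨{ContinuousLinearMap.id ℝ ℝ}, Set.finite_singleton _, fun y hy => ?_⟩
  have : y = 0 := hy _ rfl
  subst this
  simp [hη.le]

lemma q_prod {E F : Type} [NormedAddCommGroup E] [NormedSpace ℝ E] [NormedAddCommGroup F]
    [NormedSpace ℝ F] (hE : Q E) (hF : Q F) : Q (E × F) := by
  intro x η hη
  obtain ⟨S1, hS1, h1⟩ := hE x.1 η hη
  obtain ⟨S2, hS2, h2⟩ := hF x.2 η hη
  refine ⟨(fun g => g.comp (ContinuousLinearMap.fst ℝ E F)) '' S1 ∪
    (fun g => g.comp (ContinuousLinearMap.snd ℝ E F)) '' S2,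
    (hS1.image _).union (hS2.image _), fun y hy => ?_⟩
  have h3 := h1 y.1 (fun g hg => hy _ (Or.inl ⟨g, hg, rfl⟩))
  have h4 := h2 y.2 (fun g hg => hy _ (Or.inr ⟨g, hg, rfl⟩))
  have a1 := pow_le_pow_left₀ (norm_nonneg _) (norm_fst_le x) 2
  have a2 := pow_le_pow_left₀ (norm_nonneg _) (norm_snd_le x) 2
  have a3 := mul_le_mul_of_nonneg_left (pow_le_pow_left₀ (norm_nonneg _) (norm_fst_le y) 2)
    (show 0 ≤ 1 + η by linarith)
  have a4 := mul_le_mul_of_nonneg_left (pow_le_pow_left₀ (norm_nonneg _) (norm_snd_le y) 2)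
    (show 0 ≤ 1 + η by linarith)
  rw [Prod.norm_def (x + y)]
  rcases max_choice ‖(x + y).1‖ ‖(x + y).2‖ with h | h
  · rw [h, Prod.fst_add]; linarith
  · rw [h, Prod.snd_add]; linarith

lemma q_pi {ι : Type} [Fintype ι] {E : ι → Type} [∀ i, NormedAddCommGroup (E i)]
    [∀ i, NormedSpace ℝ (E i)] (hE : ∀ i, Q (E i)) : Q (∀ i, E i) := by
  intro x η hη
  choose S hS h using fun i => hE i (x i) η hη
  refine ⟨⋃ i, (fun g => g.comp (ContinuousLinearMap.proj (R := ℝ) (φ := E) i)) '' S i,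
    Set.finite_iUnion fun i => (hS i).image _, fun y hy => ?_⟩
  have hnn : 0 ≤ ‖x‖ ^ 2 + (1 + η) * ‖y‖ ^ 2 + η := by positivity
  have : ‖x + y‖ ≤ Real.sqrt (‖x‖ ^ 2 + (1 + η) * ‖y‖ ^ 2 + η) := by
    apply (pi_norm_le_iff_of_nonneg (Real.sqrt_nonneg _)).2
    intro i
    apply Real.le_sqrt_of_sq_le
    have h3 := h i (y i) (fun g hg => hy _ (Set.mem_iUnion.2 ⟨i, g, hg, rfl⟩))
    have a1 := pow_le_pow_left₀ (norm_nonneg _) (norm_le_pi_norm x i) 2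
    have a3 := mul_le_mul_of_nonneg_left
      (pow_le_pow_left₀ (norm_nonneg _) (norm_le_pi_norm y i) 2) (show 0 ≤ 1 + η by linarith)
    rw [Pi.add_apply]
    linarith
  exact (Real.le_sqrt (norm_nonneg _) hnn).1 this

lemma hasSum_ite_mem (s : Finset ℕ) (a : ℕ → ℝ) :
    HasSum (fun i => if i ∈ s then a i else 0) (∑ i ∈ s, a i) := by
  have := hasSum_sum_of_ne_finset_zero (L := SummationFilter.unconditional ℕ)
    (f := fun i => if i ∈ s then a i else 0) (s := s) (fun i hi => if_neg hi)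
  rwa [Finset.sum_congr rfl (fun i hi => if_pos hi)] at this

lemma q_lp {E : ℕ → Type} [∀ i, NormedAddCommGroup (E i)] [∀ i, NormedSpace ℝ (E i)]
    (hE : ∀ i, Q (E i)) : Q (lp E 2) := by
  intro x η hη
  have h1 := lp_hasSum x
  have h2 : ∀ᶠ s : Finset ℕ in atTop, ‖x‖ ^ 2 - η ^ 2 / 2 < ∑ i ∈ s, ‖x i‖ ^ 2 :=
    h1.eventually (lt_mem_nhds (by have := pow_pos hη 2; linarith))
  obtain ⟨s, hs⟩ := h2.exists
  set η' : ℝ := η / (2 * (s.card + 1)) with hη'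
  have hη'pos : 0 < η' := by positivity
  have hη'le : η' ≤ η := by
    rw [hη', div_le_iff₀ (by positivity)]
    nlinarith [(Nat.cast_nonneg s.card : (0 : ℝ) ≤ s.card)]
  have hη'c : s.card * η' ≤ η / 2 := by
    rw [hη', ← mul_div_assoc, div_le_div_iff₀ (by positivity) (by positivity)]
    nlinarith
  choose S hS h using fun i => hE i (x i) η' hη'pos
  refine ⟨⋃ i ∈ s, (fun g => g.comp (lp.evalCLM ℝ E 2 i)) '' S i,
    s.finite_toSet.biUnion fun i _ => (hS i).image _, fun y hy => ?_⟩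
  have h3 := ((h1.add ((lp_hasSum y).mul_left (1 + η))).add (hasSum_ite_mem s (fun _ => η'))).add
    ((h1.sub (hasSum_ite_mem s (fun i => ‖x i‖ ^ 2))).div_const η)
  have h4 := hasSum_le (fun i => ?_) (lp_hasSum (x + y)) h3
  · rw [Finset.sum_const, nsmul_eq_mul] at h4
    have h5 : (‖x‖ ^ 2 - ∑ i ∈ s, ‖x i‖ ^ 2) / η ≤ η / 2 := by
      rw [div_le_iff₀ hη]
      nlinarith
    linarith
  · have hxy : (x + y) i = x i + y i := rfl
    rw [hxy]
    by_cases hi : i ∈ s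
    · have h6 := h i (y i) (fun g hg => hy _ (Set.mem_iUnion₂.2 ⟨i, hi, g, hg, rfl⟩))
      simp only [hi, if_true, sub_self, zero_div, add_zero]
      nlinarith [sq_nonneg ‖y i‖]
    · simp only [hi, if_false, sub_zero, add_zero]
      have h6 := pow_le_pow_left₀ (norm_nonneg _) (norm_add_le (x i) (y i)) 2
      have h9 : ‖x i‖ ^ 2 / η + η * ‖y i‖ ^ 2 - 2 * (‖x i‖ * ‖y i‖)
          = (‖x i‖ - η * ‖y i‖) ^ 2 / η := by
        field_simp
        ring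
      have h10 : 0 ≤ (‖x i‖ - η * ‖y i‖) ^ 2 / η := by positivity
      nlinarith

/-- A reflexive Banach space with the quadratic smoothness estimate. -/
structure GB : Type 1 where
  C : Type
  [g : NormedAddCommGroup C]
  [s : NormedSpace ℝ C]
  [c : CompleteSpace C]
  refl : Refl C
  q : Q C

attribute [instance] GB.g GB.s GB.c

/-- A map into a good space, with lower bound `H` and upper bound `G` on distances. -/
def Emb {D : Type} (H G : D → D → ℝ) : Prop :=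
  ∃ (Y : GB) (Φ : D → Y.C), ∀ x x', H x x' ≤ ‖Φ x - Φ x'‖ ∧ ‖Φ x - Φ x'‖ ≤ G x x'

variable {D : Type}

lemma Emb.mono {H G H' G' : D → D → ℝ} (h : Emb H G) (hH : ∀ x x', H' x x' ≤ H x x')
    (hG : ∀ x x', G x x' ≤ G' x x') : Emb H' G' := by
  obtain ⟨Y, Φ, hΦ⟩ := h
  exact ⟨Y, Φ, fun x x' => ⟨(hH x x').trans (hΦ x x').1, (hΦ x x').2.trans (hG x x')⟩⟩

lemma Emb.self (Y : GB) (Φ : D → Y.C) :
    Emb (fun x x' => ‖Φ x - Φ x'‖) (fun x x' => ‖Φ x - Φ x'‖) :=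
  ⟨Y, Φ, fun _ _ => ⟨le_rfl, le_rfl⟩⟩

lemma Emb.real (φ : D → ℝ) : Emb (fun x x' => |φ x - φ x'|) (fun x x' => |φ x - φ x'|) :=
  ⟨⟨ℝ, refl_real, q_real⟩, φ, fun _ _ => ⟨le_rfl, le_rfl⟩⟩

lemma Emb.fin {ι : Type} [Fintype ι] (φ : D → ι → ℝ) :
    Emb (fun x x' => ‖φ x - φ x'‖) (fun x x' => ‖φ x - φ x'‖) :=
  ⟨⟨ι → ℝ, refl_pi fun _ => refl_real, q_pi fun _ => q_real⟩, φ, fun _ _ => ⟨le_rfl, le_rfl⟩⟩

lemma Emb.max {H G H' G' : D → D → ℝ} (h : Emb H G) (h' : Emb H' G') :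
    Emb (fun x x' => max (H x x') (H' x x')) (fun x x' => max (G x x') (G' x x')) := by
  obtain ⟨Y, Φ, hΦ⟩ := h
  obtain ⟨Y', Φ', hΦ'⟩ := h'
  refine ⟨⟨Y.C × Y'.C, refl_prod Y.refl Y'.refl, q_prod Y.q Y'.q⟩, fun x => (Φ x, Φ' x),
    fun x x' => ?_⟩
  have : ‖(Φ x, Φ' x) - (Φ x', Φ' x')‖ = Max.max ‖Φ x - Φ x'‖ ‖Φ' x - Φ' x'‖ := rfl
  exact ⟨(max_le_max (hΦ x x').1 (hΦ' x x').1).trans this.ge,
    this.le.trans (max_le_max (hΦ x x').2 (hΦ' x x').2)⟩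

lemma Emb.pi {ι : Type} [Fintype ι] {H : ι → D → D → ℝ} {G H' : D → D → ℝ}
    (h : ∀ i, Emb (H i) G) (hG : ∀ x x', 0 ≤ G x x')
    (hH : ∀ x x', H' x x' ≤ 0 ∨ ∃ i, H' x x' ≤ H i x x') : Emb H' G := by
  choose Y Φ hΦ using h
  refine ⟨⟨∀ i, (Y i).C, refl_pi fun i => (Y i).refl, q_pi fun i => (Y i).q⟩, fun x i => Φ i x,
    fun x x' => ⟨?_, ?_⟩⟩
  · rcases hH x x' with h0 | ⟨i, hi⟩
    · exact h0.trans (norm_nonneg _)
    · exact hi.trans ((hΦ i x x').1.trans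
        (norm_le_pi_norm ((fun i => Φ i x) - (fun i => Φ i x')) i))
  · exact (pi_norm_le_iff_of_nonneg (hG x x')).2 fun i => (hΦ i x x').2

lemma Emb.l2 (x0 : D) {H G : ℕ → D → D → ℝ} (h : ∀ n, Emb (H n) (G n))
    (hH : ∀ n x x', 0 ≤ H n x x') (hG : ∀ x x', FS (fun n => G n x x')) :
    Emb (fun x x' => l2n (fun n => H n x x')) (fun x x' => l2n (fun n => G n x x')) := by
  choose Y Φ hΦ using h
  have hmem : ∀ x, Memℓp (fun n => Φ n x - Φ n x0) 2 := fun x => by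
    apply mem_l2
    refine Summable.of_nonneg_of_le (fun n => sq_nonneg _) (fun n => ?_) (hG x x0).summable
    exact pow_le_pow_left₀ (norm_nonneg _) (hΦ n x x0).2 2
  let F : D → lp (fun n => (Y n).C) 2 := fun x => ⟨fun n => Φ n x - Φ n x0, hmem x⟩
  refine ⟨⟨lp (fun n => (Y n).C) 2, refl_lp fun i => (Y i).refl, q_lp fun i => (Y i).q⟩, F,
    fun x x' => ?_⟩
  have h1 : ∀ n, (F x - F x') n = Φ n x - Φ n x' := fun n => by
    change (Φ n x - Φ n x0) - (Φ n x' - Φ n x0) = _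
    abel
  have h2 : ‖F x - F x'‖ = l2n (fun n => ‖Φ n x - Φ n x'‖) := by
    rw [lp_norm_eq]
    simp only [h1]
  have h3 : Summable (fun n => ‖Φ n x - Φ n x'‖ ^ 2) := by
    have := (lp_hasSum (F x - F x')).summable
    simpa only [h1] using this
  constructor
  · refine le_trans ?_ h2.ge
    exact l2n_mono h3 fun n => by rw [abs_of_nonneg (hH n x x')]; exact (hΦ n x x').1
  · refine h2.le.trans ?_
    exact l2n_mono (hG x x').summable fun n => by rw [abs_norm]; exact (hΦ n x x').2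

lemma q_aus {Y : Type} [NormedAddCommGroup Y] [NormedSpace ℝ Y] (hY : Q Y) (t : ℝ) (ht : 0 < t)
    (ht1 : t ≤ 1) (x : Y) (hx : ‖x‖ = 1) :
    ∃ E : Submodule ℝ Y, IsClosed (E : Set Y) ∧ FiniteDimensional ℝ (Y ⧸ E) ∧
      ∀ y ∈ E, ‖y‖ ≤ t → ‖x + y‖ ≤ 1 + 2 * t ^ 2 := by
  obtain ⟨S, hS, h⟩ := hY x (t ^ 2) (by positivity)
  have := hS.fintype
  let T : Y →L[ℝ] (S → ℝ) := ContinuousLinearMap.pi fun g : S => g.1
  refine ⟨LinearMap.ker T.toLinearMap, T.isClosed_ker, ?_, fun y hy hyt => ?_⟩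
  · exact (LinearMap.quotKerEquivRange T.toLinearMap).symm.finiteDimensional
  · have h1 := h y (fun g hg => congrFun (LinearMap.mem_ker.1 hy) ⟨g, hg⟩)
    rw [hx] at h1
    have h2 : ‖y‖ ^ 2 ≤ t ^ 2 := pow_le_pow_left₀ (norm_nonneg _) hyt 2
    have h3 : t ^ 2 ≤ 1 := by nlinarith
    apply le_of_sq_le_sq _ (by positivity) |>.trans le_rfl
    nlinarith [sq_nonneg t, sq_nonneg ‖y‖, sq_nonneg (t ^ 2)]

end Pool.Agent.Lib.MP_102345_an
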