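import Pool.Agent.Lib.MP_102345_an.Tail
import Pool.Agent.Lib.MP_102345_an.Good

set_option autoImplicit false

namespace Pool.Agent.Lib.MP_102345_an

/-- Upper weights. -/
noncomputable def GG (ρ : ℝ) (x x' : X0) (h : ℕ) (l : List ℕ) : ℝ :=
  A (fun t => yy ρ x t - yy ρ x' t) h l + ‖x - x'‖ / (2 * ρ) * A (yy ρ x') h l

/-- Lower weights. -/
noncomputable def HH (ρ R : ℝ) (x x' : X0) (h : ℕ) (l : List ℕ) : ℝ :=
  if 3 * ρ ≤ ‖x - x'‖ ∧ ‖x‖ ≤ R then 1 / 2 * A (yS ρ x) h l else 0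

lemma HH_nonneg (ρ R : ℝ) (x x' : X0) (h : ℕ) (l : List ℕ) : 0 ≤ HH ρ R x x' h l := by
  unfold HH
  split_ifs
  · have := A_nonneg (yS ρ x) h l
    positivity
  · exact le_rfl

lemma block_emb {ρ : ℝ} (hρ : 1 ≤ ρ) (R : ℝ) (h : ℕ) (l : List ℕ) :
    Emb (fun x x' => if tau x (en (h, l)) ≤ ρ / 2 then HH ρ R x x' h l else 0)
      (fun x x' => GG ρ x x' h l) := by
  have hρ0 : 0 < ρ := by linarith
  have h2ρ : 0 < 2 * ρ := by linarith
  obtain ⟨Z, hZ⟩ := exists_net R (en (h, l))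
  let β : X0 → Z → ℝ := fun x z => A (yy ρ x) h l * max 0 (1 - ‖x - z‖ / (2 * ρ))
  refine (Emb.fin β).mono (fun x x' => ?_) (fun x x' => ?_)
  · split_ifs with ht
    · unfold HH
      split_ifs with hc
      · obtain ⟨z, hzZ, hz⟩ := hZ x hc.2
        have h1 : ‖x - z‖ ≤ ρ := by linarith
        have h2 : 2 * ρ ≤ ‖x' - z‖ := by
          have := norm_sub_le_norm_sub_add_norm_sub x z x'
          rw [norm_sub_rev z x'] at this
          linarith [hc.1]
        have h3 := norm_le_pi_norm (β x - β x') ⟨z, hzZ⟩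
        have h4 : (β x - β x') ⟨z, hzZ⟩ = A (yy ρ x) h l * max 0 (1 - ‖x - z‖ / (2 * ρ)) := by
          simp only [β, Pi.sub_apply]
          rw [psi_eq_zero h2ρ h2, mul_zero, sub_zero]
        have h5 : ‖x - z‖ / (2 * ρ) ≤ 1 / 2 := by
          rw [div_le_iff₀ h2ρ]
          linarith
        have h6 : 1 / 2 ≤ max 0 (1 - ‖x - z‖ / (2 * ρ)) := le_max_of_le_right (by linarith)
        have h7 := A_mono (yy_fs hρ0 x) (abs_yS_le ρ x) h l
        have h8 := A_nonneg (yy ρ x) h l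
        rw [h4, Real.norm_eq_abs] at h3
        refine le_trans ?_ ((le_abs_self _).trans h3)
        nlinarith
      · exact norm_nonneg _
    · exact norm_nonneg _
  · have hA := A_nonneg (yy ρ x') h l
    have hA2 := A_nonneg (fun t => yy ρ x t - yy ρ x' t) h l
    apply (pi_norm_le_iff_of_nonneg (by unfold GG; positivity)).2
    intro z
    have e : (β x - β x') z = (A (yy ρ x) h l - A (yy ρ x') h l) * max 0 (1 - ‖x - z‖ / (2 * ρ))
        + (max 0 (1 - ‖x - z‖ / (2 * ρ)) - max 0 (1 - ‖x' - z‖ / (2 * ρ))) * A (yy ρ x') h l := by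
      simp only [β, Pi.sub_apply]
      ring
    rw [e, Real.norm_eq_abs]
    refine (abs_add_le _ _).trans (add_le_add ?_ ?_)
    · rw [abs_mul, abs_of_nonneg (le_max_left (0 : ℝ) (1 - ‖x - z‖ / (2 * ρ)))]
      exact (mul_le_of_le_one_right (abs_nonneg _) (psi_le_one h2ρ (norm_nonneg _))).trans
        (abs_A_sub_le (yy_fs hρ0 x) (yy_fs hρ0 x') h l)
    · rw [abs_mul, abs_of_nonneg hA]
      apply mul_le_mul_of_nonneg_right _ hA
      refine (psi_lip h2ρ _ _).trans ?_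
      gcongr
      have := abs_norm_sub_norm_le (x - z) (x' - z)
      rwa [sub_sub_sub_cancel_right] at this

lemma GG_fs {ρ : ℝ} (hρ : 0 < ρ) (x x' : X0) (h : ℕ) (l : List ℕ) :
    FS (fun c => GG ρ x x' h (c :: l)) :=
  (A_fs ((yy_fs hρ x).sub (yy_fs hρ x')) h l).add ((A_fs (yy_fs hρ x') h l).const_mul _)

lemma node_emb {ρ : ℝ} (hρ : 1 ≤ ρ) (R : ℝ) : ∀ (h : ℕ) (l : List ℕ),
    Emb (fun x x' => HH ρ R x x' h l) (fun x x' => GG ρ x x' h l)
  | 0, l => by
    refine (block_emb hρ R 0 l).mono (fun x x' => ?_) (fun _ _ => le_rfl)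
    split_ifs with ht
    · exact le_rfl
    · unfold HH
      split_ifs
      · rw [A_zero, yS, if_neg ht]
        simp
      · exact le_rfl
  | h + 1, l => by
    have hρ0 : 0 < ρ := by linarith
    have h1 := Emb.l2 (0 : X0) (fun c => node_emb hρ R h (c :: l))
      (fun c x x' => HH_nonneg ρ R x x' h (c :: l)) (fun x x' => GG_fs hρ0 x x' h l)
    refine ((block_emb hρ R (h + 1) l).max h1).mono (fun x x' => ?_) (fun x x' => ?_)
    · split_ifs with ht
      · exact le_max_left _ _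
      · refine le_trans ?_ (le_max_right _ _)
        unfold HH
        split_ifs
        · rw [A_succ, yS, if_neg ht, l2n_const_mul, abs_of_pos (by norm_num : (0 : ℝ) < 1 / 2)]
          simp
        · exact l2n_nonneg _
    · apply max_le le_rfl
      have h2 := l2n_add (A_fs ((yy_fs hρ0 x).sub (yy_fs hρ0 x')) h l).summable
        ((A_fs (yy_fs hρ0 x') h l).const_mul (‖x - x'‖ / (2 * ρ))).summable
      have h3 : 0 ≤ ‖x - x'‖ / (2 * ρ) := by positivity
      rw [l2n_const_mul, abs_of_nonneg h3] at h2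
      refine h2.trans ?_
      unfold GG
      rw [A_succ, A_succ]
      apply add_le_add
      · linarith [abs_nonneg (yy ρ x (h + 1, l) - yy ρ x' (h + 1, l))]
      · apply mul_le_mul_of_nonneg_left _ h3
        linarith [abs_nonneg (yy ρ x' (h + 1, l))]

lemma scale_emb {ρ : ℝ} (hρ : 1 ≤ ρ) (R : ℝ) :
    Emb (fun x x' : X0 => if 3 * ρ ≤ ‖x - x'‖ ∧ ‖x‖ ≤ R ∧ ρ / 2 < ‖x‖ then ρ / 8 else 0)
      (fun x x' => 5 * ‖x - x'‖) := by
  have hρ0 : 0 < ρ := by linarith
  have hfs : ∀ x x' : X0, FS (fun k => GG ρ x x' k []) := fun x x' =>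
    (root_fs ((yy_fs hρ0 x).sub (yy_fs hρ0 x'))).add ((root_fs (yy_fs hρ0 x')).const_mul _)
  have h1 := Emb.l2 (0 : X0) (fun k => node_emb hρ R k [])
    (fun k x x' => HH_nonneg ρ R x x' k []) hfs
  refine h1.mono (fun x x' => ?_) (fun x x' => ?_)
  · split_ifs with hc
    · unfold HH
      simp only [if_pos (And.intro hc.1 hc.2.1)]
      rw [l2n_const_mul, abs_of_pos (by norm_num : (0 : ℝ) < 1 / 2)]
      have := nrm_yS hρ0 x hc.2.2
      unfold nrm at this
      linarith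
    · exact l2n_nonneg _
  · have h2 := l2n_add (root_fs ((yy_fs hρ0 x).sub (yy_fs hρ0 x'))).summable
      ((root_fs (yy_fs hρ0 x')).const_mul (‖x - x'‖ / (2 * ρ))).summable
    have h3 : 0 ≤ ‖x - x'‖ / (2 * ρ) := by positivity
    rw [l2n_const_mul, abs_of_nonneg h3] at h2
    refine h2.trans ?_
    have h4 := yy_lip hρ0 x x'
    have h5 := mul_le_mul_of_nonneg_left (nrm_yy hρ0 x') h3
    rw [div_mul_cancel₀ _ (by positivity)] at h5
    unfold nrm at h4 h5
    linarith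

lemma ball_emb (n : ℕ) :
    Emb (fun x x' : X0 => if ‖x'‖ ≤ ‖x‖ ∧ ‖x‖ ≤ 2 ^ (n + 1) then ‖x - x'‖ / 48 - 1 else 0)
      (fun x x' => 5 * ‖x - x'‖) := by
  refine Emb.pi (ι := Fin (n + 1))
    (fun j => scale_emb (ρ := 2 ^ (j : ℕ)) (one_le_pow₀ one_le_two) (2 ^ (n + 1)))
    (fun x x' => by positivity) (fun x x' => ?_)
  split_ifs with hc
  · by_cases hd : ‖x - x'‖ < 3
    · left
      linarith
    · right
      obtain ⟨j, hj1, hj2⟩ := exists_nat_pow_near (x := ‖x - x'‖ / 3) (y := 2) (by linarith)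
        one_lt_two
      have h1 := norm_sub_le x x'
      have hp : (0 : ℝ) < 2 ^ j := by positivity
      have hjn : j < n + 1 := by
        apply (pow_lt_pow_iff_right₀ (one_lt_two (α := ℝ))).1
        linarith [hc.1, hc.2]
      refine ⟨⟨j, hjn⟩, ?_⟩
      rw [pow_succ] at hj2
      rw [if_pos ⟨by simp only; linarith, hc.2, by simp only; linarith [hc.1]⟩]
      simp only
      linarith
  · exact Or.inl le_rfl

/-- A plateau function. -/
noncomputable def lam (s : ℝ) : ℝ := max 0 (min 1 (min (2 * s - 1) (2 - s / 2)))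

lemma lam_nonneg (s : ℝ) : 0 ≤ lam s := le_max_left _ _

lemma lam_le_one (s : ℝ) : lam s ≤ 1 := max_le zero_le_one (min_le_left _ _)

lemma lam_eq_one {s : ℝ} (h1 : 1 ≤ s) (h2 : s ≤ 2) : lam s = 1 := by
  unfold lam
  rw [min_eq_left (le_min (by linarith) (by linarith)), max_eq_right zero_le_one]

lemma lam_small {s : ℝ} (h : s ≤ 1 / 2) : lam s = 0 :=
  max_eq_left ((min_le_right _ _).trans ((min_le_left _ _).trans (by linarith)))

lemma lam_big {s : ℝ} (h : 4 ≤ s) : lam s = 0 :=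
  max_eq_left ((min_le_right _ _).trans ((min_le_right _ _).trans (by linarith)))

lemma lam_lip (s s' : ℝ) : |lam s - lam s'| ≤ 2 * |s - s'| := by
  have h0 := abs_nonneg (s - s')
  refine (abs_max_sub_max_le_max _ _ _ _).trans (max_le (by simp) ?_)
  refine (abs_min_sub_min_le_max _ _ _ _).trans (max_le (by simp) ?_)
  refine (abs_min_sub_min_le_max _ _ _ _).trans (max_le ?_ ?_)
  · have : 2 * s - 1 - (2 * s' - 1) = 2 * (s - s') := by ring
    rw [this, abs_mul, abs_two]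
  · have : 2 - s / 2 - (2 - s' / 2) = -((s - s') / 2) := by ring
    rw [this, abs_neg, abs_div, abs_two]
    linarith

lemma lam_supp (r : ℝ) : ∃ s : Finset ℕ, s.card ≤ 3 ∧ ∀ n, n ∉ s → lam (r / 2 ^ n) = 0 := by
  classical
  by_cases hex : ∃ n : ℕ, lam (r / 2 ^ n) ≠ 0
  · refine ⟨Finset.Ico (Nat.find hex) (Nat.find hex + 3), by simp, fun n hn => ?_⟩
    by_contra h0
    have h1 := Nat.find_min' hex h0
    have h2 : Nat.find hex + 3 ≤ n := by
      rw [Finset.mem_Ico] at hn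
      omega
    have h3 : r / 2 ^ (Nat.find hex) < 4 := not_le.1 fun h => Nat.find_spec hex (lam_big h)
    have h4 : (2 : ℝ) ^ (Nat.find hex + 3) ≤ 2 ^ n := pow_le_pow_right₀ one_le_two h2
    apply h0
    apply lam_small
    rw [div_lt_iff₀ (by positivity)] at h3
    rw [div_le_iff₀ (by positivity)]
    rw [pow_add] at h4
    linarith
  · push Not at hex
    exact ⟨∅, by simp, fun n _ => hex n⟩

theorem main_emb :
    Emb (fun x x' : X0 => ‖x - x'‖ / 1008 - 1) (fun x x' => 270 * ‖x - x'‖) := by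
  classical
  choose Y f0 hf0 using ball_emb
  let f : ∀ n, X0 → (Y n).C := fun n x => f0 n x - f0 n 0
  have hf1 : ∀ n x x', f n x - f n x' = f0 n x - f0 n x' := fun n x x' => by
    simp only [f]
    abel
  have hf2 : ∀ n x x', ‖f n x - f n x'‖ ≤ 5 * ‖x - x'‖ := fun n x x' => by
    rw [hf1]
    exact (hf0 n x x').2
  have hf3 : ∀ n x, ‖f n x‖ ≤ 5 * ‖x‖ := fun n x => by
    simpa using (hf0 n x 0).2
  let g : ∀ n, X0 → (Y n).C := fun n x => lam (‖x‖ / 2 ^ n) • f n x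
  have hdec : ∀ n x x', g n x - g n x' = lam (‖x‖ / 2 ^ n) • (f n x - f n x')
      + (lam (‖x‖ / 2 ^ n) - lam (‖x'‖ / 2 ^ n)) • f n x' := fun n x x' => by
    simp only [g, smul_sub, sub_smul]
    abel
  have hlam : ∀ (n : ℕ) (x x' : X0), ‖(lam (‖x‖ / 2 ^ n) - lam (‖x'‖ / 2 ^ n)) • f n x'‖
      ≤ 10 * |‖x‖ - ‖x'‖| * (‖x'‖ / 2 ^ n) := fun n x x' => by
    rw [norm_smul, Real.norm_eq_abs]
    have h1 := lam_lip (‖x‖ / 2 ^ n) (‖x'‖ / 2 ^ n)
    rw [← sub_div, abs_div, abs_of_pos (show (0 : ℝ) < 2 ^ n by positivity)] at h1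
    calc _ ≤ (2 * (|‖x‖ - ‖x'‖| / 2 ^ n)) * (5 * ‖x'‖) :=
          mul_le_mul h1 (hf3 n x') (norm_nonneg _) (by positivity)
      _ = _ := by ring
  have hup0 : ∀ n x x', ‖x'‖ ≤ ‖x‖ → ‖g n x - g n x'‖ ≤ 45 * ‖x - x'‖ := fun n x x' hxx => by
    by_cases hb : 4 ≤ ‖x'‖ / 2 ^ n
    · have h1 : 4 ≤ ‖x‖ / 2 ^ n := hb.trans (by gcongr)
      simp only [g]
      rw [lam_big hb, lam_big h1]
      simp
    · rw [hdec]
      refine (norm_add_le _ _).trans ?_
      have h1 : ‖lam (‖x‖ / 2 ^ n) • (f n x - f n x')‖ ≤ 5 * ‖x - x'‖ := by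
        rw [norm_smul, Real.norm_eq_abs, abs_of_nonneg (lam_nonneg _)]
        exact (mul_le_of_le_one_left (norm_nonneg _) (lam_le_one _)).trans (hf2 n x x')
      have h2 := hlam n x x'
      have h3 := abs_norm_sub_norm_le x x'
      have h4 : 10 * |‖x‖ - ‖x'‖| * (‖x'‖ / 2 ^ n) ≤ 10 * ‖x - x'‖ * 4 :=
        mul_le_mul (by linarith) (not_le.1 hb).le (by positivity) (by positivity)
      linarith
  have hup : ∀ n x x', ‖g n x - g n x'‖ ≤ 45 * ‖x - x'‖ := fun n x x' => by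
    rcases le_total ‖x'‖ ‖x‖ with h | h
    · exact hup0 n x x' h
    · rw [norm_sub_rev, norm_sub_rev x]
      exact hup0 n x' x h
  have hsupp : ∀ x x' : X0, ∃ s : Finset ℕ, s.card ≤ 6 ∧ ∀ n, n ∉ s → ‖g n x - g n x'‖ = 0 := by
    intro x x'
    obtain ⟨s, hs, hs2⟩ := lam_supp ‖x‖
    obtain ⟨s', hs', hs2'⟩ := lam_supp ‖x'‖
    refine ⟨s ∪ s', (Finset.card_union_le _ _).trans (by omega), fun n hn => ?_⟩
    rw [Finset.mem_union, not_or] at hn
    simp only [g]
    rw [hs2 n hn.1, hs2' n hn.2]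
    simp
  have hfs : ∀ x x' : X0, FS (fun n => ‖g n x - g n x'‖) := fun x x' => by
    obtain ⟨s, -, hs⟩ := hsupp x x'
    apply Set.Finite.subset s.finite_toSet
    intro n hn
    by_contra hc
    exact hn (hs n hc)
  have h1 := Emb.l2 (0 : X0) (fun n => Emb.self (Y n) (g n)) (fun n x x' => norm_nonneg _) hfs
  have hlow0 : ∀ x x' : X0, ‖x'‖ ≤ ‖x‖ → ‖x - x'‖ / 1008 - 1
      ≤ max |‖x‖ - ‖x'‖| (l2n fun n => ‖g n x - g n x'‖) := fun x x' hxx => by
    set M := max |‖x‖ - ‖x'‖| (l2n fun n => ‖g n x - g n x'‖) with hM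
    have hM1 : |‖x‖ - ‖x'‖| ≤ M := le_max_left _ _
    have hM0 : 0 ≤ M := (abs_nonneg _).trans hM1
    by_cases hr : ‖x‖ < 1
    · have := norm_sub_le x x'
      linarith
    · obtain ⟨n, hn1, hn2⟩ := exists_nat_pow_near (not_lt.1 hr) (one_lt_two (α := ℝ))
      have hp : (0 : ℝ) < 2 ^ n := by positivity
      have h2 : ‖g n x - g n x'‖ ≤ M := by
        have := abs_le_l2n (hfs x x').summable n
        rw [abs_norm] at this
        exact this.trans (le_max_right _ _)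
      have h3 := (hf0 n x x').1
      simp only [if_pos (And.intro hxx hn2.le), ← hf1] at h3
      rw [pow_succ] at hn2
      have h4 : lam (‖x‖ / 2 ^ n) = 1 := lam_eq_one ((one_le_div hp).2 hn1)
        (by rw [div_le_iff₀ hp]; linarith)
      have h5 := hdec n x x'
      have h6 := hlam n x x'
      have h7 : f n x - f n x'
          = (g n x - g n x') - (lam (‖x‖ / 2 ^ n) - lam (‖x'‖ / 2 ^ n)) • f n x' := by
        rw [h5, add_sub_cancel_right, h4, one_smul]
      have h8 := norm_sub_le (g n x - g n x') ((lam (‖x‖ / 2 ^ n) - lam (‖x'‖ / 2 ^ n)) • f n x')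
      rw [← h7] at h8
      have h9 : ‖x'‖ / 2 ^ n ≤ 2 := by rw [div_le_iff₀ hp]; linarith
      have h10 : 10 * |‖x‖ - ‖x'‖| * (‖x'‖ / 2 ^ n) ≤ 10 * M * 2 :=
        mul_le_mul (by linarith) h9 (by positivity) (by positivity)
      linarith
  refine ((Emb.real (fun x : X0 => ‖x‖)).max h1).mono (fun x x' => ?_) (fun x x' => ?_)
  · rcases le_total ‖x'‖ ‖x‖ with h | h
    · exact hlow0 x x' h
    · have := hlow0 x' x h
      rw [norm_sub_rev, abs_sub_comm] at this
      simpa only [norm_sub_rev (g _ x')] using this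
  · apply max_le
    · linarith [abs_norm_sub_norm_le x x', norm_nonneg (x - x')]
    · obtain ⟨s, hs, hs2⟩ := hsupp x x'
      refine (l2n_le_card s (M := 45 * ‖x - x'‖) (by positivity) hs2
        (fun n => by rw [abs_norm]; exact hup n x x')).trans ?_
      have : (s.card : ℝ) ≤ 6 := by exact_mod_cast hs
      nlinarith [norm_nonneg (x - x')]

end Pool.Agent.Lib.MP_102345_an
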