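import Mathlib

set_option autoImplicit false

namespace Pool.Agent.Lib.MP_102345_an

open scoped ENNReal

/-- The Euclidean size of a real sequence. -/
noncomputable def l2n (a : ℕ → ℝ) : ℝ := Real.sqrt (∑' n, a n ^ 2)

/-- Finite support. -/
def FS {α : Type} (a : α → ℝ) : Prop := (Function.support a).Finite

lemma FS.summable {a : ℕ → ℝ} (h : FS a) : Summable (fun n => a n ^ 2) := by
  apply summable_of_hasFiniteSupport
  apply Set.Finite.subset h
  intro n hn
  simp only [Function.mem_support] at hn ⊢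
  intro h0
  exact hn (by simp [h0])

lemma FS.of_imp {α : Type} {a b : α → ℝ} (h : FS b) (hab : ∀ n, b n = 0 → a n = 0) : FS a := by
  apply Set.Finite.subset h
  intro n hn
  simp only [Function.mem_support] at hn ⊢
  exact fun h0 => hn (hab n h0)

lemma FS.add {α : Type} {a b : α → ℝ} (ha : FS a) (hb : FS b) : FS (fun n => a n + b n) := by
  apply Set.Finite.subset (Set.Finite.union ha hb)
  intro n hn
  simp only [Function.mem_support, Set.mem_union] at hn ⊢
  by_contra hc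
  push Not at hc
  exact hn (by simp [hc.1, hc.2])

lemma FS.sub {α : Type} {a b : α → ℝ} (ha : FS a) (hb : FS b) : FS (fun n => a n - b n) := by
  apply Set.Finite.subset (Set.Finite.union ha hb)
  intro n hn
  simp only [Function.mem_support, Set.mem_union] at hn ⊢
  by_contra hc
  push Not at hc
  exact hn (by simp [hc.1, hc.2])

lemma FS.const_mul {α : Type} {a : α → ℝ} (ha : FS a) (r : ℝ) : FS (fun n => r * a n) :=
  ha.of_imp fun n h => by simp [h]

lemma FS.single {α : Type} [DecidableEq α] (t : α) (r : ℝ) : FS (Pi.single t r : α → ℝ) := by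
  apply Set.Finite.subset (Set.finite_singleton t)
  exact Pi.support_single_subset

lemma l2n_nonneg (a : ℕ → ℝ) : 0 ≤ l2n a := Real.sqrt_nonneg _

lemma l2n_zero : l2n (fun _ => 0) = 0 := by simp [l2n]

lemma l2n_mono {a b : ℕ → ℝ} (hb : Summable (fun n => b n ^ 2)) (h : ∀ n, |a n| ≤ b n) :
    l2n a ≤ l2n b := by
  have h2 : ∀ n, a n ^ 2 ≤ b n ^ 2 := fun n => by
    rw [← sq_abs (a n)]
    exact pow_le_pow_left₀ (abs_nonneg _) (h n) 2
  apply Real.sqrt_le_sqrt
  exact Summable.tsum_le_tsum h2 (Summable.of_nonneg_of_le (fun n => sq_nonneg _) h2 hb) hb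

lemma l2n_const_mul (r : ℝ) (a : ℕ → ℝ) : l2n (fun n => r * a n) = |r| * l2n a := by
  unfold l2n
  simp only [mul_pow, tsum_mul_left]
  rw [Real.sqrt_mul (sq_nonneg r), Real.sqrt_sq_eq_abs]

lemma abs_le_l2n {a : ℕ → ℝ} (ha : Summable (fun n => a n ^ 2)) (n : ℕ) : |a n| ≤ l2n a := by
  apply Real.abs_le_sqrt
  exact ha.le_tsum n (fun _ _ => sq_nonneg _)

section lp
variable {E : ℕ → Type} [∀ i, NormedAddCommGroup (E i)]

lemma lp_hasSum (f : lp E 2) : HasSum (fun i => ‖f i‖ ^ 2) (‖f‖ ^ 2) := by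
  have := lp.hasSum_norm (p := 2) (by norm_num) f
  simpa using this

lemma lp_norm_eq (f : lp E 2) : ‖f‖ = l2n (fun i => ‖f i‖) := by
  unfold l2n
  rw [(lp_hasSum f).tsum_eq, Real.sqrt_sq (norm_nonneg _)]

lemma mem_l2 {f : ∀ i, E i} (h : Summable (fun i => ‖f i‖ ^ 2)) : Memℓp f 2 := by
  apply memℓp_gen
  simpa using h

lemma norm_sq_sum_single (f : ∀ i, E i) (s : Finset ℕ) :
    ‖∑ i ∈ s, lp.single 2 i (f i)‖ ^ 2 = ∑ i ∈ s, ‖f i‖ ^ 2 := by
  have := lp.norm_sum_single (p := 2) (by norm_num) f s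
  simpa using this

end lp

lemma l2n_add {a b : ℕ → ℝ} (ha : Summable (fun n => a n ^ 2)) (hb : Summable (fun n => b n ^ 2)) :
    l2n (fun n => a n + b n) ≤ l2n a + l2n b := by
  let f : lp (fun _ : ℕ => ℝ) 2 := ⟨a, mem_l2 (by simpa using ha)⟩
  let g : lp (fun _ : ℕ => ℝ) 2 := ⟨b, mem_l2 (by simpa using hb)⟩
  have h := norm_add_le f g
  rw [lp_norm_eq, lp_norm_eq, lp_norm_eq] at h
  simpa [l2n, f, g] using h

lemma l2n_le_of_single {a : ℕ → ℝ} {c : ℕ} {M : ℝ} (h0 : ∀ n, n ≠ c → a n = 0) (hc : |a c| ≤ M) :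
    l2n a ≤ M := by
  unfold l2n
  rw [tsum_eq_single c (fun n hn => by simp [h0 n hn]), Real.sqrt_sq_eq_abs]
  exact hc

lemma l2n_le_card {a : ℕ → ℝ} (s : Finset ℕ) {M : ℝ} (hM : 0 ≤ M) (h0 : ∀ n, n ∉ s → a n = 0)
    (hc : ∀ n, |a n| ≤ M) : l2n a ≤ s.card * M := by
  unfold l2n
  rw [tsum_eq_sum (s := s) (fun n hn => by simp [h0 n hn])]
  apply Real.sqrt_le_iff.2
  refine ⟨by positivity, ?_⟩
  have h1 : ∑ n ∈ s, a n ^ 2 ≤ ∑ _n ∈ s, M ^ 2 := by
    apply Finset.sum_le_sum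
    intro n _
    rw [← sq_abs (a n)]
    exact pow_le_pow_left₀ (abs_nonneg _) (hc n) 2
  rw [Finset.sum_const, nsmul_eq_mul] at h1
  have h2 : (s.card : ℝ) ≤ (s.card : ℝ) ^ 2 := by
    have : s.card ≤ s.card ^ 2 := by nlinarith
    exact_mod_cast this
  rw [mul_pow]
  nlinarith [sq_nonneg M]

end Pool.Agent.Lib.MP_102345_an
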