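import Pool.Agent.Lib.MP_102345_an.Tree

set_option autoImplicit false

namespace Pool.Agent.Lib.MP_102345_an

open Filter Topology

lemma close_pair {Z : Type} [NormedAddCommGroup Z] [NormedSpace ℝ Z] [FiniteDimensional ℝ Z]
    (u : ℕ → Z) {R η : ℝ} (hu : ∀ n, ‖u n‖ ≤ R) (hη : 0 < η) :
    ∃ c c', c ≠ c' ∧ ‖u c - u c'‖ < η := by
  have := FiniteDimensional.proper_real Z
  obtain ⟨a, -, φ, hφ, hlim⟩ := (isCompact_closedBall (0 : Z) R).tendsto_subseq
    (x := u) (fun n => by simpa using hu n)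
  obtain ⟨n, hn⟩ := Metric.cauchySeq_iff'.1 hlim.cauchySeq η hη
  refine ⟨φ (n + 1), φ n, (hφ (Nat.lt_succ_self n)).ne', ?_⟩
  have := hn (n + 1) (Nat.le_succ n)
  rwa [dist_eq_norm] at this

lemma close_pair_quot {Z : Type} [NormedAddCommGroup Z] [NormedSpace ℝ Z] (E : Submodule ℝ Z)
    (hE : IsClosed (E : Set Z)) (hfin : FiniteDimensional ℝ (Z ⧸ E))
    (u : ℕ → Z) {R η : ℝ} (hu : ∀ n, ‖u n‖ ≤ R) (hη : 0 < η) :
    ∃ c c', c ≠ c' ∧ ∃ y ∈ E, ‖u c - u c' - y‖ < η := by
  obtain ⟨c, c', hcc, h⟩ := close_pair (Z := Z ⧸ E) (fun n => Submodule.Quotient.mk (u n))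
    (R := R) (fun n => (Submodule.Quotient.norm_mk_le E (u n)).trans (hu n)) (half_pos hη)
  obtain ⟨m, hm, hm2⟩ := Submodule.Quotient.norm_mk_lt
    (Submodule.Quotient.mk (u c) - Submodule.Quotient.mk (u c') : Z ⧸ E) (half_pos hη)
  refine ⟨c, c', hcc, u c - u c' - m, ?_, ?_⟩
  · rw [← Submodule.Quotient.eq, Submodule.Quotient.mk_sub, hm]
  · rw [sub_sub_cancel]
    linarith

/-- The forest space. -/
abbrev X : Type := UniformSpace.Completion X0

theorem not_aus (N : X → ℝ) (hadd : ∀ x y : X, N (x + y) ≤ N x + N y)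
    (hsmul : ∀ (r : ℝ) (x : X), N (r • x) = |r| * N x) (c C : ℝ) (hc : 0 < c)
    (hb : ∀ x : X, c * ‖x‖ ≤ N x ∧ N x ≤ C * ‖x‖)
    (haus : ∀ ε : ℝ, 0 < ε → ∃ δ : ℝ, 0 < δ ∧ ∀ t : ℝ, 0 < t → t < δ →
      ∀ x : X, N x = 1 →
        ∃ E : Submodule ℝ X, IsClosed (E : Set X) ∧ FiniteDimensional ℝ (X ⧸ E) ∧
          ∀ y ∈ E, N y ≤ t → N (x + y) ≤ 1 + ε * t) : False := by
  have hcC : c ≤ C := by
    have h1 := hb ((ev (0, []) 1 : X0) : X)
    have h2 : 1 ≤ ‖((ev (0, []) 1 : X0) : X)‖ := by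
      rw [UniformSpace.Completion.norm_coe, X0.norm_def]
      have := abs_le_nrm (ev (0, []) 1).fs (0, [])
      simpa [ev_val] using this
    nlinarith [h1.1, h1.2]
  have hC : 0 < C := hc.trans_le hcC
  set ε : ℝ := c / (8 * C) with hε
  have hεpos : 0 < ε := by positivity
  have hε1 : ε ≤ 1 := by
    rw [hε, div_le_one (by positivity)]
    linarith
  have hεC : ε * C = c / 8 := by
    rw [hε]
    field_simp
  obtain ⟨δ, hδ, hδ2⟩ := haus ε hεpos
  set K : ℝ := 4 * C / (δ * c) with hK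
  have hKpos : 0 < K := by positivity
  have hKc : δ * (c * K) = 4 * C := by
    rw [hK]
    field_simp
  have key : ∀ i h : ℕ, ∃ (x : X0) (l : List ℕ), (∀ t : T, t.1 < h → x.val t = 0) ∧
      K + i ≤ |x.val (h, l)| + Up x.val h l ∧ N (x : X) ≤ C * K + i * (c / 2) := by
    intro i
    induction i with
    | zero =>
      intro h
      refine ⟨ev (h, []) K, [], fun t ht => ?_, ?_, ?_⟩
      · rw [ev_val, Pi.single_eq_of_ne]
        rintro rfl
        exact lt_irrefl _ ht
      · simp [ev_val, Up, le_abs_self]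
      · have h1 := (hb ((ev (h, []) K : X0) : X)).2
        rw [UniformSpace.Completion.norm_coe] at h1
        have h2 := norm_ev_le (h, []) K
        rw [abs_of_pos hKpos] at h2
        have := mul_le_mul_of_nonneg_left h2 hC.le
        simp only [Nat.cast_zero, zero_mul, add_zero]
        linarith
    | succ i ih =>
      intro h
      obtain ⟨x, l, hx0, hx1, hx2⟩ := ih (h + 1)
      have hxK : K ≤ ‖(x : X)‖ := by
        rw [UniformSpace.Completion.norm_coe, X0.norm_def]
        have h1 := A_add_Up_le x.fs l (h + 1)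
        have h2 := abs_le_A x.val (h + 1) l
        have : (0 : ℝ) ≤ i := Nat.cast_nonneg i
        linarith
      set s : ℝ := N (x : X) with hs
      have hsK : c * K ≤ s := (mul_le_mul_of_nonneg_left hxK hc.le).trans (hb _).1
      have hspos : 0 < s := lt_of_lt_of_le (by positivity) hsK
      have ht : 3 * C / s < δ := by
        rw [div_lt_iff₀ hspos]
        nlinarith
      obtain ⟨E, hE1, hE2, hE3⟩ := hδ2 (3 * C / s) (by positivity) ht (s⁻¹ • (x : X)) (by
        rw [hsmul, abs_of_pos (inv_pos.2 hspos), ← hs, inv_mul_cancel₀ hspos.ne'])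
      have hu : ∀ n : ℕ, ‖((ev (h, n :: l) 1 : X0) : X)‖ ≤ 1 := fun n => by
        rw [UniformSpace.Completion.norm_coe]
        simpa using norm_ev_le (h, n :: l) 1
      obtain ⟨a, a', haa, y, hyE, hy⟩ := close_pair_quot E hE1 hE2
        (fun n => ((ev (h, n :: l) 1 : X0) : X)) hu hεpos
      have hy3 : ‖y‖ ≤ 3 := by
        have h1 : y = ((ev (h, a :: l) 1 : X0) : X) - ((ev (h, a' :: l) 1 : X0) : X)
          - (((ev (h, a :: l) 1 : X0) : X) - ((ev (h, a' :: l) 1 : X0) : X) - y) := by abel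
        have h2 := norm_sub_le (((ev (h, a :: l) 1 : X0) : X) - ((ev (h, a' :: l) 1 : X0) : X))
          (((ev (h, a :: l) 1 : X0) : X) - ((ev (h, a' :: l) 1 : X0) : X) - y)
        have h3 := norm_sub_le ((ev (h, a :: l) 1 : X0) : X) ((ev (h, a' :: l) 1 : X0) : X)
        rw [← h1] at h2
        linarith [hu a, hu a']
      have h4 := hE3 (s⁻¹ • y) (E.smul_mem _ hyE) (by
        rw [hsmul, abs_of_pos (inv_pos.2 hspos), div_eq_inv_mul]
        apply mul_le_mul_of_nonneg_left _ (inv_pos.2 hspos).le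
        nlinarith [(hb y).2])
      rw [← smul_add, hsmul, abs_of_pos (inv_pos.2 hspos), inv_mul_le_iff₀ hspos] at h4
      have h5 : s * (1 + ε * (3 * C / s)) = s + 3 * (ε * C) := by
        field_simp
      refine ⟨x + (ev (h, a :: l) 1 - ev (h, a' :: l) 1), a :: l, fun t ht => ?_, ?_, ?_⟩
      · have n1 : t ≠ (h, a :: l) := by rintro rfl; exact lt_irrefl _ ht
        have n2 : t ≠ (h, a' :: l) := by rintro rfl; exact lt_irrefl _ ht
        simp only [X0.val_add, X0.val_sub, ev_val]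
        rw [hx0 t (by omega), Pi.single_eq_of_ne n1, Pi.single_eq_of_ne n2]
        simp
      · have e1 : (x + (ev (h, a :: l) 1 - ev (h, a' :: l) 1)).val (h, a :: l) = 1 := by
          have n2 : ((h, a :: l) : T) ≠ (h, a' :: l) := by simpa using haa
          simp only [X0.val_add, X0.val_sub, ev_val]
          rw [hx0 _ (by simp), Pi.single_eq_same, Pi.single_eq_of_ne n2]
          simp
        have e2 : Up (x + (ev (h, a :: l) 1 - ev (h, a' :: l) 1)).val h (a :: l)
            = Up x.val h (a :: l) := by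
          apply Up_congr
          intro t ht
          have n1 : t ≠ (h, a :: l) := by rintro rfl; exact lt_irrefl _ ht
          have n2 : t ≠ (h, a' :: l) := by rintro rfl; exact lt_irrefl _ ht
          simp only [X0.val_add, X0.val_sub, ev_val]
          rw [Pi.single_eq_of_ne n1, Pi.single_eq_of_ne n2]
          simp
        have e3 : Up x.val h (a :: l) = |x.val (h + 1, l)| + Up x.val (h + 1) l := rfl
        rw [e1, e2, e3, abs_one]
        push_cast
        linarith
      · have e1 : ((x + (ev (h, a :: l) 1 - ev (h, a' :: l) 1) : X0) : X)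
            = ((x : X) + y) + (((ev (h, a :: l) 1 : X0) : X) - ((ev (h, a' :: l) 1 : X0) : X) - y) := by
          rw [UniformSpace.Completion.coe_add, UniformSpace.Completion.coe_sub]
          abel
        rw [e1]
        have h6 := hadd ((x : X) + y)
          (((ev (h, a :: l) 1 : X0) : X) - ((ev (h, a' :: l) 1 : X0) : X) - y)
        have h7 := (hb (((ev (h, a :: l) 1 : X0) : X) - ((ev (h, a' :: l) 1 : X0) : X) - y)).2
        have h8 := mul_le_mul_of_nonneg_left hy.le hC.le
        push_cast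
        nlinarith
  obtain ⟨i, hi⟩ := exists_nat_gt (2 * C * K / c)
  obtain ⟨x, l, -, hx1, hx2⟩ := key i 0
  have h1 := A_add_Up_le x.fs l 0
  have h2 := abs_le_A x.val 0 l
  have h3 := (hb (x : X)).1
  rw [UniformSpace.Completion.norm_coe, X0.norm_def] at h3
  rw [div_lt_iff₀ hc] at hi
  have h4 : c * (K + i) ≤ c * nrm x.val := mul_le_mul_of_nonneg_left (by linarith) hc.le
  nlinarith

end Pool.Agent.Lib.MP_102345_an
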