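import Pool.Agent.Lib.MP_102345_an.Embed
import Pool.Agent.Lib.MP_102345_an.NotAUS

set_option autoImplicit false

namespace Pool.Agent.Lib.MP_102345_an

theorem exists_emb : ∃ (Y : GB) (f : X → Y.C), ∀ x x' : X,
    ‖x - x'‖ / 1008 - 540 ≤ ‖f x - f x'‖ ∧ ‖f x - f x'‖ ≤ 1008 * ‖x - x'‖ + 540 := by
  obtain ⟨Y, Φ, hΦ⟩ := main_emb
  have h1 : ∀ x : X, ∃ z : X0, ‖x - (z : X)‖ ≤ 1 := fun x => by
    obtain ⟨z, hz⟩ := (UniformSpace.Completion.denseRange_coe (α := X0)).exists_dist_lt x one_pos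
    exact ⟨z, by rw [← dist_eq_norm]; exact hz.le⟩
  choose p hp using h1
  refine ⟨Y, fun x => Φ (p x), fun x x' => ?_⟩
  have h2 : ‖p x - p x'‖ = ‖(p x : X) - (p x' : X)‖ := by
    rw [← UniformSpace.Completion.coe_sub, UniformSpace.Completion.norm_coe]
  have h3 : |‖x - x'‖ - ‖(p x : X) - (p x' : X)‖| ≤ 2 := by
    refine (abs_norm_sub_norm_le _ _).trans ?_
    have : x - x' - ((p x : X) - (p x' : X)) = (x - (p x : X)) - (x' - (p x' : X)) := by abel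
    rw [this]
    linarith [norm_sub_le (x - (p x : X)) (x' - (p x' : X)), hp x, hp x']
  obtain ⟨h4, h5⟩ := hΦ (p x) (p x')
  simp only [h2] at h4 h5
  rw [abs_le] at h3
  have := norm_nonneg (x - x')
  constructor <;> linarith [h3.1, h3.2]

theorem GB.aus (Y : GB) : ∀ ε : ℝ, 0 < ε → ∃ δ : ℝ, 0 < δ ∧ ∀ t : ℝ, 0 < t → t < δ →
    ∀ x : Y.C, ‖x‖ = 1 →
      ∃ E : Submodule ℝ Y.C, IsClosed (E : Set Y.C) ∧ FiniteDimensional ℝ (Y.C ⧸ E) ∧
        ∀ y ∈ E, ‖y‖ ≤ t → ‖x + y‖ ≤ 1 + ε * t := by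
  intro ε hε
  refine ⟨min 1 (ε / 2), by positivity, fun t ht htδ x hx => ?_⟩
  obtain ⟨E, hE1, hE2, hE3⟩ := q_aus Y.q t ht (htδ.le.trans (min_le_left _ _)) x hx
  refine ⟨E, hE1, hE2, fun y hy hyt => (hE3 y hy hyt).trans ?_⟩
  have := htδ.le.trans (min_le_right _ _)
  nlinarith

lemma ev_sep (M : ℝ) (hM : 0 ≤ M) {c c' : ℕ} (h : c ≠ c') :
    M ≤ ‖((ev (c, []) M : X0) : X) - ((ev (c', []) M : X0) : X)‖ := by
  rw [← UniformSpace.Completion.coe_sub, UniformSpace.Completion.norm_coe, X0.norm_def]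
  have h1 := abs_le_nrm (ev (c, []) M - ev (c', []) M).fs (c, [])
  have h2 : ((c, []) : T) ≠ (c', []) := by simpa using h
  simp only [X0.val_sub, ev_val, Pi.single_eq_same, Pi.single_eq_of_ne h2, sub_zero,
    abs_of_nonneg hM] at h1
  exact h1

lemma norm_ev_coe (M : ℝ) (hM : 0 ≤ M) (c : ℕ) : ‖((ev (c, []) M : X0) : X)‖ ≤ M := by
  rw [UniformSpace.Completion.norm_coe]
  simpa [abs_of_nonneg hM] using norm_ev_le (c, []) M

theorem not_finite_of_emb {Y : Type} [NormedAddCommGroup Y] [NormedSpace ℝ Y] (f : X → Y)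
    {K B : ℝ} (hK : 0 < K) (hB : 0 ≤ B)
    (hf : ∀ x x' : X, ‖x - x'‖ / K - B ≤ ‖f x - f x'‖ ∧ ‖f x - f x'‖ ≤ K * ‖x - x'‖ + B) :
    ¬ FiniteDimensional ℝ Y := by
  intro hY
  have hM : 0 ≤ K * (B + 1) := by positivity
  obtain ⟨c, c', hcc, h⟩ := close_pair (fun c => f ((ev (c, []) (K * (B + 1)) : X0) : X) - f 0)
    (R := K * (K * (B + 1)) + B) (η := 1) (fun c => by
      refine (hf _ _).2.trans ?_
      rw [sub_zero]
      gcongr
      exact norm_ev_coe _ hM c) one_pos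
  rw [sub_sub_sub_cancel_right] at h
  have h1 := (hf ((ev (c, []) (K * (B + 1)) : X0) : X) ((ev (c', []) (K * (B + 1)) : X0) : X)).1
  have h2 := ev_sep _ hM hcc
  have h3 : B + 1 ≤ ‖((ev (c, []) (K * (B + 1)) : X0) : X)
      - ((ev (c', []) (K * (B + 1)) : X0) : X)‖ / K := by
    rw [le_div_iff₀ hK]
    linarith
  linarith

theorem not_finite_X : ¬ FiniteDimensional ℝ X :=
  not_finite_of_emb (fun x => x) (K := 1) (B := 0) one_pos le_rfl (fun x x' => by simp)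

end Pool.Agent.Lib.MP_102345_an
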