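import Pool.Agent.Lib.MP_102345_an.L2

set_option autoImplicit false

namespace Pool.Agent.Lib.MP_102345_an

open scoped ENNReal
open Filter Topology

/-- Reflexivity. -/
def Refl (Y : Type) [NormedAddCommGroup Y] [NormedSpace ℝ Y] : Prop :=
  Function.Surjective (NormedSpace.inclusionInDoubleDual ℝ Y)

lemma refl_of {Y : Type} [NormedAddCommGroup Y] [NormedSpace ℝ Y]
    (h : ∀ Φ : StrongDual ℝ (StrongDual ℝ Y), ∃ y : Y, ∀ g : StrongDual ℝ Y, Φ g = g y) :
    Refl Y := by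
  intro Φ
  obtain ⟨y, hy⟩ := h Φ
  refine ⟨y, ?_⟩
  ext g
  rw [NormedSpace.dual_def, hy]

lemma exists_rep {Y E : Type} [NormedAddCommGroup Y] [NormedSpace ℝ Y] [NormedAddCommGroup E]
    [NormedSpace ℝ E] (hE : Refl E) (P : Y →L[ℝ] E) (Φ : StrongDual ℝ (StrongDual ℝ Y)) :
    ∃ e : E, ∀ g : StrongDual ℝ E, Φ (g.comp P) = g e := by
  obtain ⟨e, he⟩ := hE (Φ.comp ((ContinuousLinearMap.compL ℝ Y E ℝ).flip P))
  refine ⟨e, fun g => ?_⟩
  have := congrArg (fun F => F g) he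
  simp only [NormedSpace.dual_def] at this
  rw [this]
  rfl

lemma refl_real : Refl ℝ := by
  apply refl_of
  intro Φ
  refine ⟨Φ (ContinuousLinearMap.id ℝ ℝ), fun g => ?_⟩
  have hg : g = g 1 • ContinuousLinearMap.id ℝ ℝ := by
    ext
    simp
  have h2 : ∀ a : ℝ, g a = g 1 * a := fun a => by
    have := g.map_smul a 1
    simp only [smul_eq_mul, mul_one] at this
    rw [this, mul_comm]
  rw [h2]
  conv_lhs => rw [hg]
  rw [map_smul, smul_eq_mul]

lemma refl_prod {E F : Type} [NormedAddCommGroup E] [NormedSpace ℝ E] [NormedAddCommGroup F]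
    [NormedSpace ℝ F] (hE : Refl E) (hF : Refl F) : Refl (E × F) := by
  apply refl_of
  intro Φ
  obtain ⟨e, he⟩ := exists_rep hE (ContinuousLinearMap.fst ℝ E F) Φ
  obtain ⟨f, hf⟩ := exists_rep hF (ContinuousLinearMap.snd ℝ E F) Φ
  refine ⟨(e, f), fun g => ?_⟩
  have hg : g = (g.comp (ContinuousLinearMap.inl ℝ E F)).comp (ContinuousLinearMap.fst ℝ E F)
      + (g.comp (ContinuousLinearMap.inr ℝ E F)).comp (ContinuousLinearMap.snd ℝ E F) := by
    apply ContinuousLinearMap.ext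
    intro y
    simp [← map_add]
  conv_lhs => rw [hg]
  rw [map_add, he, hf]
  simp [← map_add]

lemma refl_pi {ι : Type} [Fintype ι] {E : ι → Type} [∀ i, NormedAddCommGroup (E i)]
    [∀ i, NormedSpace ℝ (E i)] (hE : ∀ i, Refl (E i)) : Refl (∀ i, E i) := by
  classical
  apply refl_of
  intro Φ
  choose e he using fun i => exists_rep (hE i) (ContinuousLinearMap.proj (R := ℝ) (φ := E) i) Φ
  refine ⟨e, fun g => ?_⟩
  have key : ∀ y : ∀ i, E i, g y = ∑ i, g (Pi.single i (y i)) := fun y => by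
    rw [← map_sum, Finset.univ_sum_single]
  have hg : g = ∑ i, (g.comp (ContinuousLinearMap.single ℝ E i)).comp
      (ContinuousLinearMap.proj (R := ℝ) (φ := E) i) := by
    apply ContinuousLinearMap.ext
    intro y
    rw [key y]
    simp
  conv_lhs => rw [hg]
  rw [map_sum, key e]
  apply Finset.sum_congr rfl
  intro i _
  rw [he]
  simp

section lp
variable {E : ℕ → Type} [∀ i, NormedAddCommGroup (E i)] [∀ i, NormedSpace ℝ (E i)]

lemma le_sq_of_le_mul_sqrt {S C : ℝ} (hS : 0 ≤ S) (h : S ≤ C * Real.sqrt S) : S ≤ C ^ 2 := by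
  have h1 := Real.sq_sqrt hS
  have h2 := Real.sqrt_nonneg S
  nlinarith [sq_nonneg (C - Real.sqrt S)]

lemma summable_dual (g : StrongDual ℝ (lp E 2)) :
    Summable (fun i => ‖g.comp (lp.singleContinuousLinearMap ℝ E 2 i)‖ ^ 2) := by
  have h1 : ∀ i, ∃ u : E i, ‖u‖ ≤ 1 ∧
      ‖g.comp (lp.singleContinuousLinearMap ℝ E 2 i)‖ ≤ 2 * |g (lp.single 2 i u)| := by
    intro i
    rcases (norm_nonneg (g.comp (lp.singleContinuousLinearMap ℝ E 2 i))).eq_or_lt with h0 | h0
    · exact ⟨0, by simp, by rw [← h0]; positivity⟩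
    · obtain ⟨u, hu, hu2⟩ := ContinuousLinearMap.exists_lt_apply_of_lt_opNorm
        (g.comp (lp.singleContinuousLinearMap ℝ E 2 i)) (half_lt_self h0)
      refine ⟨u, hu.le, ?_⟩
      have : ‖(g.comp (lp.singleContinuousLinearMap ℝ E 2 i)) u‖ = |g (lp.single 2 i u)| := rfl
      linarith
  choose u hu1 hu2 using h1
  have h2 : Summable (fun i => 4 * (g (lp.single 2 i (u i))) ^ 2) := by
    apply Summable.mul_left
    apply summable_of_sum_le (c := ‖g‖ ^ 2) (fun i => sq_nonneg _)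
    intro s
    apply le_sq_of_le_mul_sqrt (Finset.sum_nonneg fun i _ => sq_nonneg _)
    set v : lp E 2 := ∑ i ∈ s, lp.single 2 i (g (lp.single 2 i (u i)) • u i) with hv
    have hgv : g v = ∑ i ∈ s, (g (lp.single 2 i (u i))) ^ 2 := by
      rw [hv, map_sum]
      apply Finset.sum_congr rfl
      intro i _
      rw [lp.single_smul, map_smul, smul_eq_mul, sq]
    have hnv : ‖v‖ ≤ Real.sqrt (∑ i ∈ s, (g (lp.single 2 i (u i))) ^ 2) := by
      apply Real.le_sqrt_of_sq_le
      rw [hv, norm_sq_sum_single (fun i => g (lp.single 2 i (u i)) • u i)]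
      apply Finset.sum_le_sum
      intro i _
      rw [norm_smul, mul_pow, Real.norm_eq_abs, sq_abs]
      have : ‖u i‖ ^ 2 ≤ 1 := by nlinarith [hu1 i, norm_nonneg (u i)]
      nlinarith [sq_nonneg (g (lp.single 2 i (u i)))]
    rw [← hgv] at hnv ⊢
    calc g v ≤ ‖g v‖ := le_abs_self _
      _ ≤ ‖g‖ * ‖v‖ := g.le_opNorm v
      _ ≤ _ := by gcongr
  refine Summable.of_nonneg_of_le (fun i => sq_nonneg _) (fun i => ?_) h2
  have := pow_le_pow_left₀ (norm_nonneg _) (hu2 i) 2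
  rw [mul_pow, sq_abs] at this
  linarith

lemma dual_tail (g : StrongDual ℝ (lp E 2)) {δ : ℝ} (hδ : 0 < δ) :
    ∀ᶠ s : Finset ℕ in atTop, ‖g - ∑ i ∈ s, (g.comp (lp.singleContinuousLinearMap ℝ E 2 i)).comp
      (lp.evalCLM ℝ E 2 i)‖ ≤ δ := by
  classical
  set a : ℕ → ℝ := fun i => ‖g.comp (lp.singleContinuousLinearMap ℝ E 2 i)‖ with ha
  have hs : Summable (fun i => a i ^ 2) := summable_dual g
  have h1 := hs.hasSum
  have h2 : ∀ᶠ s : Finset ℕ in atTop, (∑' i, a i ^ 2) - δ ^ 2 < ∑ i ∈ s, a i ^ 2 :=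
    h1.eventually (lt_mem_nhds (by have := pow_pos hδ 2; linarith))
  filter_upwards [h2] with s hs2
  apply ContinuousLinearMap.opNorm_le_of_unit_norm hδ.le
  intro y hy
  have h3 : HasSum (fun i => g (lp.single 2 i (y i))) (g y) :=
    (lp.hasSum_single (p := 2) (by norm_num) y).mapL g
  have h4 : HasSum (fun i => if i ∈ s then g (lp.single 2 i (y i)) else 0)
      (∑ i ∈ s, g (lp.single 2 i (y i))) := by
    have := hasSum_sum_of_ne_finset_zero (L := SummationFilter.unconditional ℕ)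
      (f := fun i => if i ∈ s then g (lp.single 2 i (y i)) else 0) (s := s)
      (fun i hi => if_neg hi)
    rwa [Finset.sum_congr rfl (fun i hi => if_pos hi)] at this
  have h5 : HasSum (fun i => if i ∈ s then a i ^ 2 else 0) (∑ i ∈ s, a i ^ 2) := by
    have := hasSum_sum_of_ne_finset_zero (L := SummationFilter.unconditional ℕ)
      (f := fun i => if i ∈ s then a i ^ 2 else 0) (s := s) (fun i hi => if_neg hi)
    rwa [Finset.sum_congr rfl (fun i hi => if_pos hi)] at this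
  have h6 := (((h1.sub h5).div_const δ).add ((lp_hasSum y).mul_left δ)).div_const 2
  have h7 := (h3.sub h4).norm_le_of_bounded h6 (fun i => by
    by_cases hi : i ∈ s
    · simp only [hi, if_true, sub_self, norm_zero]
      positivity
    · simp only [hi, if_false, sub_zero]
      have h8 : ‖g (lp.single 2 i (y i))‖ ≤ a i * ‖y i‖ :=
        (g.comp (lp.singleContinuousLinearMap ℝ E 2 i)).le_opNorm (y i)
      refine h8.trans ?_
      have h9 : a i ^ 2 / δ + δ * ‖y i‖ ^ 2 - 2 * (a i * ‖y i‖) = (a i - δ * ‖y i‖) ^ 2 / δ := by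
        field_simp
        ring
      have h10 : 0 ≤ (a i - δ * ‖y i‖) ^ 2 / δ := by positivity
      linarith)
  have h11 : (g - ∑ i ∈ s, (g.comp (lp.singleContinuousLinearMap ℝ E 2 i)).comp
      (lp.evalCLM ℝ E 2 i)) y = g y - ∑ i ∈ s, g (lp.single 2 i (y i)) := by
    rw [_root_.sub_apply, _root_.sum_apply]
    rfl
  rw [h11]
  refine h7.trans ?_
  rw [hy]
  have h12 : ((∑' i, a i ^ 2) - ∑ i ∈ s, a i ^ 2) / δ ≤ δ := by
    rw [div_le_iff₀ hδ]
    nlinarith
  linarith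

lemma refl_lp (hE : ∀ i, Refl (E i)) : Refl (lp E 2) := by
  apply refl_of
  intro Φ
  choose e he using fun i => exists_rep (hE i) (lp.evalCLM ℝ E 2 i) Φ
  have hsum : Summable (fun i => ‖e i‖ ^ 2) := by
    apply summable_of_sum_le (c := ‖Φ‖ ^ 2) (fun i => sq_nonneg _)
    intro s
    apply le_sq_of_le_mul_sqrt (Finset.sum_nonneg fun i _ => sq_nonneg _)
    choose φ hφ1 hφ2 using fun i => exists_dual_vector'' ℝ (e i)
    set G : StrongDual ℝ (lp E 2) := ∑ i ∈ s, ‖e i‖ • (φ i).comp (lp.evalCLM ℝ E 2 i) with hG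
    have h1 : Φ G = ∑ i ∈ s, ‖e i‖ ^ 2 := by
      rw [hG, map_sum]
      apply Finset.sum_congr rfl
      intro i _
      rw [map_smul, he, hφ2, smul_eq_mul, sq]
      rfl
    have h2 : ‖G‖ ≤ Real.sqrt (∑ i ∈ s, ‖e i‖ ^ 2) := by
      apply ContinuousLinearMap.opNorm_le_bound _ (Real.sqrt_nonneg _)
      intro y
      have h3 : G y = ∑ i ∈ s, ‖e i‖ * φ i (y i) := by
        rw [hG, _root_.sum_apply]
        rfl
      have h4 : ‖G y‖ ≤ ∑ i ∈ s, ‖e i‖ * ‖y i‖ := by
        rw [h3]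
        refine (norm_sum_le _ _).trans (Finset.sum_le_sum fun i _ => ?_)
        rw [norm_mul, norm_norm]
        have := (φ i).le_opNorm (y i)
        have h5 : ‖φ i (y i)‖ ≤ ‖y i‖ := this.trans (by
          have := hφ1 i
          nlinarith [norm_nonneg (y i)])
        gcongr
      refine h4.trans ((Real.sum_mul_le_sqrt_mul_sqrt _ _ _).trans ?_)
      gcongr
      apply Real.sqrt_le_iff.2
      exact ⟨norm_nonneg _, sum_le_hasSum s (fun i _ => sq_nonneg _) (lp_hasSum y)⟩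
    rw [← h1] at h2 ⊢
    calc Φ G ≤ ‖Φ G‖ := le_abs_self _
      _ ≤ ‖Φ‖ * ‖G‖ := Φ.le_opNorm G
      _ ≤ _ := by gcongr
  let y : lp E 2 := ⟨e, mem_l2 hsum⟩
  refine ⟨y, fun g => ?_⟩
  have h3 : HasSum (fun i => g (lp.single 2 i (y i))) (g y) :=
    (lp.hasSum_single (p := 2) (by norm_num) y).mapL g
  have h4 : Tendsto (fun s : Finset ℕ => ∑ i ∈ s,
      (g.comp (lp.singleContinuousLinearMap ℝ E 2 i)).comp (lp.evalCLM ℝ E 2 i)) atTop (𝓝 g) := by
    rw [Metric.tendsto_nhds]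
    intro ε hε
    filter_upwards [dual_tail g (half_pos hε)] with s hs
    rw [dist_comm, dist_eq_norm]
    linarith
  have h5 := (Φ.continuous.tendsto g).comp h4
  refine tendsto_nhds_unique h5 ?_
  have h6 : (Φ ∘ fun s : Finset ℕ => ∑ i ∈ s,
      (g.comp (lp.singleContinuousLinearMap ℝ E 2 i)).comp (lp.evalCLM ℝ E 2 i))
      = fun s : Finset ℕ => ∑ i ∈ s, g (lp.single 2 i (y i)) := by
    funext s
    simp only [Function.comp, map_sum]
    apply Finset.sum_congr rfl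
    intro i _
    rw [he]
    rfl
  rw [h6]
  exact h3

end lp

end Pool.Agent.Lib.MP_102345_an
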