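import Pool.Agent.Lib.MP_102345_an.Tree

set_option autoImplicit false

namespace Pool.Agent.Lib.MP_102345_an

/-- An enumeration of the nodes. -/
def en (t : T) : ℕ := Encodable.encode t

lemma en_inj : Function.Injective en := Encodable.encode_injective

/-- The coordinates of index larger than `m`. -/
def tail (m : ℕ) (x : T → ℝ) : T → ℝ := fun t => if m < en t then x t else 0

lemma tail_fs {x : T → ℝ} (hx : FS x) (m : ℕ) : FS (tail m x) :=
  hx.of_imp fun t h => by simp [tail, h]

/-- The norm of the tail. -/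
noncomputable def tau (x : X0) (m : ℕ) : ℝ := nrm (tail m x.val)

lemma tau_nonneg (x : X0) (m : ℕ) : 0 ≤ tau x m := nrm_nonneg _

lemma tau_le (x x' : X0) (m : ℕ) : tau x m ≤ tau x' m + ‖x - x'‖ := by
  have h1 := nrm_add (tail_fs x'.fs m) (tail_fs (x - x').fs m)
  have h2 : (fun t => tail m x'.val t + tail m (x - x').val t) = tail m x.val := by
    funext t
    simp only [tail, X0.val_sub]
    split_ifs <;> ring
  have h3 : nrm (tail m (x - x').val) ≤ ‖x - x'‖ := by
    apply nrm_mono (x - x').fs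
    intro t
    simp only [tail]
    split_ifs <;> simp
  rw [h2] at h1
  unfold tau
  linarith

lemma abs_tau_sub (x x' : X0) (m : ℕ) : |tau x m - tau x' m| ≤ ‖x - x'‖ := by
  have h1 := tau_le x x' m
  have h2 := tau_le x' x m
  rw [norm_sub_rev] at h2
  rw [abs_le]
  constructor <;> linarith

lemma tau_anti (x : X0) {m m' : ℕ} (h : m ≤ m') : tau x m' ≤ tau x m := by
  apply nrm_mono (tail_fs x.fs m)
  intro t
  simp only [tail]
  split_ifs with h1 h2 h2
  · exact le_rfl
  · omega
  · simp
  · exact le_rfl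

lemma exists_tau_zero (x : X0) : ∃ m, tau x m = 0 := by
  obtain ⟨m, hm⟩ := (Set.Finite.image en x.fs).bddAbove
  refine ⟨m, ?_⟩
  have : tail m x.val = fun _ => 0 := by
    funext t
    simp only [tail]
    split_ifs with h
    · by_contra h0
      have := hm ⟨t, h0, rfl⟩
      omega
    · rfl
  rw [tau, this, nrm_zero]

/-- Truncated coordinates with small tail. -/
noncomputable def cut (ρ r : ℝ) (x : X0) : T → ℝ :=
  fun t => if tau x (en t) < r then min |x.val t| ρ else 0

lemma cut_fs {ρ : ℝ} (hρ : 0 ≤ ρ) (r : ℝ) (x : X0) : FS (cut ρ r x) :=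
  x.fs.of_imp fun t h => by simp [cut, h, hρ]

lemma cut_nonneg {ρ : ℝ} (hρ : 0 ≤ ρ) (r : ℝ) (x : X0) (t : T) : 0 ≤ cut ρ r x t := by
  unfold cut
  split_ifs
  · exact le_min (abs_nonneg _) hρ
  · exact le_rfl

lemma nrm_cut {ρ r : ℝ} (hρ : 0 ≤ ρ) (hr : 0 ≤ r) (x : X0) : nrm (cut ρ r x) ≤ ρ + r := by
  classical
  by_cases hex : ∃ m, ∃ t, en t = m ∧ tau x (en t) < r
  · obtain ⟨t0, ht0, ht0r⟩ := Nat.find_spec hex
    have hmin : ∀ t, tau x (en t) < r → en t0 ≤ en t := fun t ht => by
      rw [ht0]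
      exact Nat.find_min' hex ⟨t, rfl, ht⟩
    have hfs : FS (fun t => |tail (en t0) x.val t|) :=
      (tail_fs x.fs (en t0)).of_imp fun t h => by simp [h]
    have h1 := nrm_add (FS.single t0 ρ) hfs
    have h2 := nrm_single_le t0 ρ
    rw [abs_of_nonneg hρ] at h2
    have h3 : nrm (fun t => |tail (en t0) x.val t|) ≤ tau x (en t0) :=
      nrm_mono (tail_fs x.fs _) fun t => by simp
    have h4 : nrm (cut ρ r x)
        ≤ nrm (fun t => (Pi.single t0 ρ : T → ℝ) t + |tail (en t0) x.val t|) := by
      apply nrm_mono ((FS.single t0 ρ).add hfs)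
      intro t
      rw [abs_of_nonneg (cut_nonneg hρ r x t)]
      refine le_trans ?_ (le_abs_self _)
      have hs : 0 ≤ (Pi.single t0 ρ : T → ℝ) t := by
        rw [Pi.single_apply]
        split_ifs
        · exact hρ
        · exact le_rfl
      unfold cut
      split_ifs with ht
      · rcases (hmin t ht).eq_or_lt with he | he
        · have : t0 = t := en_inj he
          subst this
          rw [Pi.single_eq_same]
          linarith [min_le_right |x.val t0| ρ, abs_nonneg (tail (en t0) x.val t0)]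
        · have : tail (en t0) x.val t = x.val t := if_pos he
          rw [this]
          linarith [min_le_left |x.val t| ρ]
      · positivity
    linarith
  · push Not at hex
    have : cut ρ r x = fun _ => 0 := by
      funext t
      exact if_neg (not_lt.2 (hex _ t rfl))
    rw [this, nrm_zero]
    positivity

/-- The localized tail at scale `ρ`. -/
noncomputable def yy (ρ : ℝ) (x : X0) : T → ℝ :=
  fun t => max 0 (1 - tau x (en t) / ρ) * min |x.val t| ρ

lemma yy_fs {ρ : ℝ} (hρ : 0 < ρ) (x : X0) : FS (yy ρ x) :=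
  x.fs.of_imp fun t h => by simp [yy, h, hρ.le]

lemma yy_nonneg {ρ : ℝ} (hρ : 0 < ρ) (x : X0) (t : T) : 0 ≤ yy ρ x t :=
  mul_nonneg (le_max_left _ _) (le_min (abs_nonneg _) hρ.le)

lemma psi_le_one {ρ s : ℝ} (hρ : 0 < ρ) (hs : 0 ≤ s) : max 0 (1 - s / ρ) ≤ 1 :=
  max_le zero_le_one (by have := div_nonneg hs hρ.le; linarith)

lemma psi_eq_zero {ρ s : ℝ} (hρ : 0 < ρ) (hs : ρ ≤ s) : max 0 (1 - s / ρ) = 0 :=
  max_eq_left (by have := (one_le_div hρ).2 hs; linarith)

lemma psi_lip {ρ : ℝ} (hρ : 0 < ρ) (s s' : ℝ) :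
    |max 0 (1 - s / ρ) - max 0 (1 - s' / ρ)| ≤ |s - s'| / ρ := by
  refine (abs_max_sub_max_le_max _ _ _ _).trans (max_le ?_ ?_)
  · simp only [sub_self, abs_zero]
    positivity
  · have : 1 - s / ρ - (1 - s' / ρ) = -((s - s') / ρ) := by ring
    rw [this, abs_neg, abs_div, abs_of_pos hρ]

lemma nrm_yy {ρ : ℝ} (hρ : 0 < ρ) (x : X0) : nrm (yy ρ x) ≤ 2 * ρ := by
  have h1 := nrm_cut hρ.le hρ.le x
  have h2 : nrm (yy ρ x) ≤ nrm (cut ρ ρ x) := by
    apply nrm_mono (cut_fs hρ.le _ _)
    intro t
    rw [abs_of_nonneg (yy_nonneg hρ x t), abs_of_nonneg (cut_nonneg hρ.le _ x t)]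
    unfold yy cut
    split_ifs with ht
    · exact mul_le_of_le_one_left (le_min (abs_nonneg _) hρ.le) (psi_le_one hρ (tau_nonneg _ _))
    · rw [psi_eq_zero hρ (not_lt.1 ht), zero_mul]
  linarith

lemma yy_lip {ρ : ℝ} (hρ : 0 < ρ) (x x' : X0) :
    nrm (fun t => yy ρ x t - yy ρ x' t) ≤ 4 * ‖x - x'‖ := by
  set d := ‖x - x'‖ with hd
  have hd0 : 0 ≤ d := norm_nonneg _
  rcases le_total d ρ with hdρ | hdρ
  · have hfs : FS (fun t => |(x - x').val t|) := (x - x').fs.of_imp fun t h => by simp [h]
    have hfs2 := (cut_fs hρ.le (ρ + d) x').const_mul (d / ρ)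
    have h1 := nrm_add hfs hfs2
    rw [nrm_smul, abs_of_nonneg (div_nonneg hd0 hρ.le)] at h1
    have h2 : nrm (fun t => |(x - x').val t|) ≤ d := nrm_mono (x - x').fs fun t => by simp
    have h3 := nrm_cut hρ.le (show 0 ≤ ρ + d by linarith) x'
    have h4 : d / ρ * nrm (cut ρ (ρ + d) x') ≤ 3 * d := by
      calc d / ρ * nrm (cut ρ (ρ + d) x') ≤ d / ρ * (3 * ρ) :=
            mul_le_mul_of_nonneg_left (by linarith) (div_nonneg hd0 hρ.le)
        _ = 3 * d := by field_simp
    have h5 : nrm (fun t => yy ρ x t - yy ρ x' t)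
        ≤ nrm (fun t => |(x - x').val t| + d / ρ * cut ρ (ρ + d) x' t) := by
      apply nrm_mono (hfs.add hfs2)
      intro t
      refine le_trans ?_ (le_abs_self _)
      have e1 : yy ρ x t - yy ρ x' t
          = max 0 (1 - tau x (en t) / ρ) * (min |x.val t| ρ - min |x'.val t| ρ)
            + (max 0 (1 - tau x (en t) / ρ) - max 0 (1 - tau x' (en t) / ρ)) * min |x'.val t| ρ := by
        unfold yy
        ring
      rw [e1]
      refine (abs_add_le _ _).trans (add_le_add ?_ ?_)
      · rw [abs_mul, abs_of_nonneg (le_max_left _ _)]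
        have h6 : |min (|x.val t|) ρ - min (|x'.val t|) ρ| ≤ |(x - x').val t| := by
          refine (abs_min_sub_min_le_max _ _ _ _).trans (max_le ?_ ?_)
          · exact abs_abs_sub_abs_le_abs_sub _ _
          · simp
        exact (mul_le_of_le_one_left (abs_nonneg _) (psi_le_one hρ (tau_nonneg _ _))).trans h6
      · rw [abs_mul, abs_of_nonneg (le_min (abs_nonneg _) hρ.le)]
        unfold cut
        split_ifs with ht
        · apply mul_le_mul_of_nonneg_right _ (le_min (abs_nonneg _) hρ.le)
          refine (psi_lip hρ _ _).trans ?_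
          gcongr
          exact abs_tau_sub x x' _
        · have h7 := tau_le x' x (en t)
          rw [norm_sub_rev] at h7
          rw [psi_eq_zero hρ (by linarith [not_lt.1 ht]), psi_eq_zero hρ (by linarith [not_lt.1 ht])]
          simp
    linarith
  · have h1 := nrm_add (yy_fs hρ x) ((yy_fs hρ x').const_mul (-1))
    rw [nrm_smul] at h1
    have e : (fun t => yy ρ x t + -1 * yy ρ x' t) = fun t => yy ρ x t - yy ρ x' t := by
      funext t
      ring
    rw [e] at h1
    have h2 := nrm_yy hρ x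
    have h3 := nrm_yy hρ x'
    simp only [abs_neg, abs_one, one_mul] at h1
    linarith

/-- The part of the localized tail where the tail is at most `ρ / 2`. -/
noncomputable def yS (ρ : ℝ) (x : X0) : T → ℝ :=
  fun t => if tau x (en t) ≤ ρ / 2 then yy ρ x t else 0

lemma yS_fs {ρ : ℝ} (hρ : 0 < ρ) (x : X0) : FS (yS ρ x) :=
  (yy_fs hρ x).of_imp fun t h => by simp [yS, h]

lemma abs_yS_le (ρ : ℝ) (x : X0) (t : T) : |yS ρ x t| ≤ |yy ρ x t| := by
  unfold yS
  split_ifs <;> simp

lemma nrm_yS {ρ : ℝ} (hρ : 0 < ρ) (x : X0) (hx : ρ / 2 < ‖x‖) : ρ / 4 ≤ nrm (yS ρ x) := by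
  classical
  have hex : ∃ m, tau x m ≤ ρ / 2 := by
    obtain ⟨m, hm⟩ := exists_tau_zero x
    exact ⟨m, by rw [hm]; positivity⟩
  set m0 := Nat.find hex with hm0
  have hS : ∀ t, m0 ≤ en t → min |x.val t| ρ / 2 ≤ yS ρ x t := fun t ht => by
    have h1 : tau x (en t) ≤ ρ / 2 := (tau_anti x ht).trans (Nat.find_spec hex)
    have h2 : tau x (en t) / ρ ≤ 1 / 2 := by
      rw [div_le_iff₀ hρ]
      linarith
    have h3 : 1 / 2 ≤ max 0 (1 - tau x (en t) / ρ) := le_max_of_le_right (by linarith)
    have h4 : 0 ≤ min |x.val t| ρ := le_min (abs_nonneg _) hρ.le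
    unfold yS yy
    rw [if_pos h1]
    nlinarith
  by_cases hbig : ∃ t, m0 ≤ en t ∧ ρ ≤ |x.val t|
  · obtain ⟨t, ht, ht2⟩ := hbig
    have h1 := hS t ht
    rw [min_eq_right ht2] at h1
    have h2 := abs_le_nrm (yS_fs hρ x) t
    linarith [le_abs_self (yS ρ x t)]
  · push Not at hbig
    have h1 : ρ / 2 < nrm (fun t => if m0 ≤ en t then x.val t else 0) := by
      rcases Nat.eq_zero_or_eq_succ_pred m0 with h0 | h0
      · have : (fun t => if m0 ≤ en t then x.val t else 0) = x.val := by
          funext t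
          rw [if_pos (by omega)]
        rw [this]
        exact hx
      · have h2 := Nat.find_min hex (show m0.pred < Nat.find hex by omega)
        have : (fun t => if m0 ≤ en t then x.val t else 0) = tail m0.pred x.val := by
          funext t
          simp only [tail]
          have : m0 ≤ en t ↔ m0.pred < en t := by omega
          simp only [this]
        rw [this]
        exact not_le.1 h2
    have h2 : nrm (fun t => (1 / 2) * (if m0 ≤ en t then x.val t else 0)) ≤ nrm (yS ρ x) := by
      apply nrm_mono (yS_fs hρ x)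
      intro t
      split_ifs with ht
      · have h3 := hS t ht
        rw [min_eq_left (hbig t ht).le] at h3
        rw [abs_mul, abs_of_pos (by norm_num : (0 : ℝ) < 1 / 2)]
        linarith [le_abs_self (yS ρ x t)]
      · simp
    rw [nrm_smul, abs_of_pos (by norm_num : (0 : ℝ) < 1 / 2)] at h2
    linarith

lemma nrm_le_card {M : ℝ} (F : Finset T) : ∀ w : T → ℝ, (∀ t, t ∉ F → w t = 0) →
    (∀ t, |w t| ≤ M) → nrm w ≤ F.card * M := by
  classical
  induction F using Finset.induction_on with
  | empty =>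
    intro w h0 _
    have : w = fun _ => 0 := funext fun t => h0 t (by simp)
    rw [this, nrm_zero]
    simp
  | insert a F ha ih =>
    intro w h0 hM
    have hM0 : 0 ≤ M := (abs_nonneg _).trans (hM a)
    have h1 := ih (fun t => if t = a then 0 else w t) (fun t ht => by
      split_ifs with h
      · rfl
      · exact h0 t (by simp [h, ht])) (fun t => by
      split_ifs
      · simpa using hM0
      · exact hM t)
    have hfs : FS (fun t => if t = a then 0 else w t) := by
      apply Set.Finite.subset (insert a F).finite_toSet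
      intro t ht
      by_contra hc
      apply ht
      have := h0 t hc
      simp [this]
    have h2 := nrm_add (FS.single a (w a)) hfs
    have e : (fun t => (Pi.single a (w a) : T → ℝ) t + if t = a then 0 else w t) = w := by
      funext t
      by_cases h : t = a
      · subst h
        simp
      · simp [h]
    rw [e] at h2
    have h3 := nrm_single_le a (w a)
    rw [Finset.card_insert_of_notMem ha]
    push_cast
    linarith [hM a]

lemma exists_net (R : ℝ) (m : ℕ) : ∃ Z : Finset X0, ∀ x : X0, ‖x‖ ≤ R →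
    ∃ z ∈ Z, ‖x - z‖ ≤ tau x m + 1 / 2 := by
  classical
  have hfin : (en ⁻¹' Set.Iic m).Finite := (Set.finite_Iic m).preimage en_inj.injOn
  set F := hfin.toFinset with hF
  have hmem : ∀ t, t ∈ F ↔ en t ≤ m := fun t => by simp [hF]
  set θ : ℝ := 1 / (2 * (F.card + 1)) with hθ
  have hθpos : 0 < θ := by positivity
  have hθc : F.card * θ ≤ 1 / 2 := by
    rw [hθ, mul_one_div, div_le_div_iff₀ (by positivity) (by positivity)]
    linarith
  obtain ⟨V, -, hV, hcov⟩ := (isCompact_closedBall (0 : F → ℝ) R).finite_cover_balls hθpos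
  have hfs : ∀ v : F → ℝ, FS (fun t => if h : t ∈ F then v ⟨t, h⟩ else 0) := fun v => by
    apply Set.Finite.subset F.finite_toSet
    intro t ht
    by_contra hc
    exact ht (dif_neg hc)
  refine ⟨hV.toFinset.image (fun v => X0.mk _ (hfs v)), fun x hx => ?_⟩
  have h1 : (fun s : F => x.val s) ∈ Metric.closedBall (0 : F → ℝ) R := by
    rw [mem_closedBall_zero_iff, pi_norm_le_iff_of_nonneg ((norm_nonneg _).trans hx)]
    intro s
    exact (abs_le_nrm x.fs s).trans hx
  obtain ⟨v, hvV, hv⟩ := Set.mem_iUnion₂.1 (hcov h1)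
  refine ⟨X0.mk _ (hfs v), Finset.mem_image.2 ⟨v, by simpa using hvV, rfl⟩, ?_⟩
  have hw0 : ∀ t, t ∉ F → (if h : t ∈ F then x.val t - v ⟨t, h⟩ else 0) = 0 :=
    fun t ht => dif_neg ht
  have h2 := nrm_le_card (M := θ) F (fun t => if h : t ∈ F then x.val t - v ⟨t, h⟩ else 0) hw0
    (fun t => by
      split_ifs with h
      · have := (dist_pi_lt_iff hθpos).1 (Metric.mem_ball.1 hv) ⟨t, h⟩
        exact (Real.dist_eq _ _ ▸ this).le
      · simpa using hθpos.le)
  have h3 := nrm_add (tail_fs x.fs m) (hfs (fun s => x.val s - v s))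
  have e : (x - X0.mk _ (hfs v)).val
      = fun t => tail m x.val t + if h : t ∈ F then x.val t - v ⟨t, h⟩ else 0 := by
    funext t
    simp only [X0.val_sub, X0.val_mk, tail]
    by_cases h : t ∈ F
    · have := (hmem t).1 h
      rw [dif_pos h, dif_pos h, if_neg (by omega), zero_add]
    · have : ¬ en t ≤ m := fun h' => h ((hmem t).2 h')
      rw [dif_neg h, dif_neg h, if_pos (by omega), sub_zero, add_zero]
  rw [X0.norm_def, e]
  unfold tau
  linarith

end Pool.Agent.Lib.MP_102345_an
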