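import Pool.Agent.Lib.MP_102345_an.L2

set_option autoImplicit false

namespace Pool.Agent.Lib.MP_102345_an

/-- Nodes of the forest: `(h, l)` has height `h`; the children of `(h+1, l)` are the `(h, c :: l)`;
the roots are the `(k, [])`. -/
abbrev T : Type := ℕ × List ℕ

/-- The norm of the part of `x` below a node. -/
noncomputable def A (x : T → ℝ) : ℕ → List ℕ → ℝ
  | 0, l => |x (0, l)|
  | h + 1, l => |x (h + 1, l)| + l2n (fun c => A x h (c :: l))

/-- The norm of the forest space. -/
noncomputable def nrm (x : T → ℝ) : ℝ := l2n (fun k => A x k [])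

lemma A_zero (x : T → ℝ) (l : List ℕ) : A x 0 l = |x (0, l)| := rfl

lemma A_succ (x : T → ℝ) (h : ℕ) (l : List ℕ) :
    A x (h + 1) l = |x (h + 1, l)| + l2n (fun c => A x h (c :: l)) := rfl

lemma abs_le_A (x : T → ℝ) (h : ℕ) (l : List ℕ) : |x (h, l)| ≤ A x h l := by
  cases h with
  | zero => exact le_rfl
  | succ h => rw [A_succ]; linarith [l2n_nonneg (fun c => A x h (c :: l))]

lemma A_nonneg (x : T → ℝ) (h : ℕ) (l : List ℕ) : 0 ≤ A x h l :=
  (abs_nonneg _).trans (abs_le_A x h l)

lemma nrm_nonneg (x : T → ℝ) : 0 ≤ nrm x := l2n_nonneg _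

/-- `t` lies below the node `(h, l)`. -/
def Below (h : ℕ) (l : List ℕ) (t : T) : Prop := ∃ u : List ℕ, t.2 = u ++ l ∧ t.1 + u.length = h

lemma A_eq_zero (x : T → ℝ) : ∀ (h : ℕ) (l : List ℕ), (∀ t, Below h l t → x t = 0) → A x h l = 0
  | 0, l, hx => by rw [A_zero, hx (0, l) ⟨[], rfl, rfl⟩, abs_zero]
  | h + 1, l, hx => by
    rw [A_succ, hx (h + 1, l) ⟨[], rfl, rfl⟩, abs_zero, zero_add]
    have : (fun c => A x h (c :: l)) = fun _ => 0 := by
      funext c
      apply A_eq_zero x h (c :: l)
      rintro t ⟨u, hu, hu2⟩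
      exact hx t ⟨u ++ [c], by simp [hu], by simp; omega⟩
    rw [this, l2n_zero]

lemma A_fs {x : T → ℝ} (hx : FS x) (h : ℕ) (l : List ℕ) : FS (fun c => A x h (c :: l)) := by
  apply Set.Finite.subset (Set.Finite.biUnion hx (fun t _ => t.2.finite_toSet))
  intro c hc
  simp only [Function.mem_support] at hc
  by_contra hcon
  apply hc
  apply A_eq_zero
  rintro t ⟨u, hu, _⟩
  by_contra h0
  apply hcon
  simp only [Set.mem_iUnion]
  exact ⟨t, h0, by simp [hu]⟩

lemma root_fs {x : T → ℝ} (hx : FS x) : FS (fun k => A x k []) := by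
  apply Set.Finite.subset (Set.Finite.image (fun t : T => t.1 + t.2.length) hx)
  intro k hk
  simp only [Function.mem_support] at hk
  by_contra hcon
  apply hk
  apply A_eq_zero
  rintro t ⟨u, hu, hu2⟩
  by_contra h0
  apply hcon
  exact ⟨t, h0, by simp [hu, hu2]⟩

lemma A_mono {x y : T → ℝ} (hy : FS y) (hxy : ∀ t, |x t| ≤ |y t|) :
    ∀ (h : ℕ) (l : List ℕ), A x h l ≤ A y h l
  | 0, l => hxy _
  | h + 1, l => by
    rw [A_succ, A_succ]
    apply add_le_add (hxy _)
    apply l2n_mono (A_fs hy h l).summable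
    intro c
    rw [abs_of_nonneg (A_nonneg _ _ _)]
    exact A_mono hy hxy h (c :: l)

lemma nrm_mono {x y : T → ℝ} (hy : FS y) (hxy : ∀ t, |x t| ≤ |y t|) : nrm x ≤ nrm y := by
  apply l2n_mono (root_fs hy).summable
  intro k
  rw [abs_of_nonneg (A_nonneg _ _ _)]
  exact A_mono hy hxy k []

lemma A_add {x y : T → ℝ} (hx : FS x) (hy : FS y) :
    ∀ (h : ℕ) (l : List ℕ), A (fun t => x t + y t) h l ≤ A x h l + A y h l
  | 0, l => abs_add_le _ _
  | h + 1, l => by
    rw [A_succ, A_succ, A_succ]
    have h1 : l2n (fun c => A (fun t => x t + y t) h (c :: l))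
        ≤ l2n (fun c => A x h (c :: l) + A y h (c :: l)) := by
      apply l2n_mono ((A_fs hx h l).add (A_fs hy h l)).summable
      intro c
      rw [abs_of_nonneg (A_nonneg _ _ _)]
      exact A_add hx hy h (c :: l)
    have h2 := l2n_add (A_fs hx h l).summable (A_fs hy h l).summable
    have h3 := abs_add_le (x (h + 1, l)) (y (h + 1, l))
    linarith

lemma nrm_add {x y : T → ℝ} (hx : FS x) (hy : FS y) :
    nrm (fun t => x t + y t) ≤ nrm x + nrm y := by
  refine le_trans ?_ (l2n_add (root_fs hx).summable (root_fs hy).summable)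
  apply l2n_mono ((root_fs hx).add (root_fs hy)).summable
  intro k
  rw [abs_of_nonneg (A_nonneg _ _ _)]
  exact A_add hx hy k []

lemma A_smul (r : ℝ) (x : T → ℝ) :
    ∀ (h : ℕ) (l : List ℕ), A (fun t => r * x t) h l = |r| * A x h l
  | 0, l => abs_mul _ _
  | h + 1, l => by
    rw [A_succ, A_succ]
    have : (fun c => A (fun t => r * x t) h (c :: l)) = fun c => |r| * A x h (c :: l) := by
      funext c
      exact A_smul r x h (c :: l)
    rw [this, l2n_const_mul, abs_abs, abs_mul, mul_add]

lemma nrm_smul (r : ℝ) (x : T → ℝ) : nrm (fun t => r * x t) = |r| * nrm x := by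
  unfold nrm
  simp only [A_smul]
  rw [l2n_const_mul, abs_abs]

lemma abs_A_sub_le {x y : T → ℝ} (hx : FS x) (hy : FS y) (h : ℕ) (l : List ℕ) :
    |A x h l - A y h l| ≤ A (fun t => x t - y t) h l := by
  have h1 := A_add hy (hx.sub hy) h l
  have h2 := A_add hx ((hx.sub hy).const_mul (-1)) h l
  rw [A_smul] at h2
  have e1 : (fun t => y t + (x t - y t)) = x := by funext t; ring
  have e2 : (fun t => x t + -1 * (x t - y t)) = y := by funext t; ring
  rw [e1] at h1
  rw [e2] at h2
  simp only [abs_neg, abs_one, one_mul] at h2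
  rw [abs_le]
  constructor <;> linarith

/-- Sum of the absolute values over the strict ancestors of a node. -/
noncomputable def Up (x : T → ℝ) : ℕ → List ℕ → ℝ
  | _, [] => 0
  | h, _ :: l => |x (h + 1, l)| + Up x (h + 1) l

lemma Up_nonneg (x : T → ℝ) : ∀ (h : ℕ) (l : List ℕ), 0 ≤ Up x h l
  | _, [] => le_rfl
  | h, _ :: l => add_nonneg (abs_nonneg _) (Up_nonneg x (h + 1) l)

lemma A_add_Up_le {x : T → ℝ} (hx : FS x) : ∀ (l : List ℕ) (h : ℕ), A x h l + Up x h l ≤ nrm x
  | [], h => by
    have := abs_le_l2n (root_fs hx).summable h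
    rw [abs_of_nonneg (A_nonneg _ _ _)] at this
    simpa [Up, nrm] using this
  | c :: l, h => by
    have h1 := A_add_Up_le hx l (h + 1)
    have h2 := abs_le_l2n (A_fs hx h l).summable c
    rw [abs_of_nonneg (A_nonneg _ _ _)] at h2
    rw [A_succ] at h1
    change A x h (c :: l) + (|x (h + 1, l)| + Up x (h + 1) l) ≤ nrm x
    linarith

lemma abs_le_nrm {x : T → ℝ} (hx : FS x) (t : T) : |x t| ≤ nrm x := by
  have h1 := A_add_Up_le hx t.2 t.1
  have h2 := abs_le_A x t.1 t.2
  have h3 := Up_nonneg x t.1 t.2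
  linarith

lemma Up_congr {x y : T → ℝ} : ∀ (l : List ℕ) (h : ℕ), (∀ t : T, h < t.1 → x t = y t) →
    Up x h l = Up y h l
  | [], _, _ => rfl
  | _ :: l, h, hxy => by
    change |x (h + 1, l)| + Up x (h + 1) l = |y (h + 1, l)| + Up y (h + 1) l
    rw [hxy (h + 1, l) (by simp), Up_congr l (h + 1) (fun t ht => hxy t (by omega))]

lemma A_single_zero (t : T) (a : ℝ) (h : ℕ) (l : List ℕ) (ht : ¬ Below h l t) :
    A (Pi.single t a) h l = 0 := by
  apply A_eq_zero
  intro s hs
  rw [Pi.single_eq_of_ne]
  rintro rfl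
  exact ht hs

lemma A_single_le (t : T) (a : ℝ) : ∀ (h : ℕ) (l : List ℕ), A (Pi.single t a) h l ≤ |a|
  | 0, l => by
    rw [A_zero, Pi.single_apply]
    split_ifs <;> simp
  | h + 1, l => by
    rw [A_succ]
    by_cases ht : (h + 1, l) = t
    · have : (fun c => A (Pi.single t a) h (c :: l)) = fun _ => 0 := by
        funext c
        apply A_single_zero
        rintro ⟨u, _, hu⟩
        rw [← ht] at hu
        simp only at hu
        omega
      rw [this, l2n_zero, ht, Pi.single_eq_same, add_zero]
    · rw [Pi.single_eq_of_ne ht, abs_zero, zero_add]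
      by_cases hc : ∃ c, Below h (c :: l) t
      · obtain ⟨c, u, hu, hu2⟩ := hc
        apply l2n_le_of_single (c := c)
        · intro n hn
          apply A_single_zero
          rintro ⟨v, hv, hv2⟩
          rw [hu] at hv
          have := (List.append_inj hv (by omega)).2
          simp only [List.cons.injEq, and_true] at this
          exact hn this.symm
        · rw [abs_of_nonneg (A_nonneg _ _ _)]
          exact A_single_le t a h (c :: l)
      · push Not at hc
        have : (fun c => A (Pi.single t a) h (c :: l)) = fun _ => 0 := by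
          funext c
          exact A_single_zero t a h (c :: l) (hc c)
        rw [this, l2n_zero]
        exact abs_nonneg _

lemma nrm_single_le (t : T) (a : ℝ) : nrm (Pi.single t a) ≤ |a| := by
  apply l2n_le_of_single (c := t.1 + t.2.length)
  · intro n hn
    apply A_single_zero
    rintro ⟨v, hv, hv2⟩
    apply hn
    rw [← hv2, hv]
    simp
  · rw [abs_of_nonneg (A_nonneg _ _ _)]
    exact A_single_le t a _ _

/-- Finitely supported functions on the forest. -/
def X0 : Type := T →₀ ℝ

noncomputable instance : AddCommGroup X0 := inferInstanceAs (AddCommGroup (T →₀ ℝ))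
noncomputable instance : Module ℝ X0 := inferInstanceAs (Module ℝ (T →₀ ℝ))

/-- Coordinates. -/
def X0.val (x : X0) : T → ℝ := fun t => (show T →₀ ℝ from x) t

lemma X0.fs (x : X0) : FS x.val := Finsupp.hasFiniteSupport (show T →₀ ℝ from x)

lemma X0.val_add (x y : X0) : (x + y).val = fun t => x.val t + y.val t := rfl
lemma X0.val_sub (x y : X0) : (x - y).val = fun t => x.val t - y.val t := rfl
lemma X0.val_neg (x : X0) : (-x).val = fun t => -x.val t := rfl
lemma X0.val_zero : (0 : X0).val = fun _ => 0 := rfl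
lemma X0.val_smul (r : ℝ) (x : X0) : (r • x).val = fun t => r * x.val t := rfl

lemma X0.ext {x y : X0} (h : x.val = y.val) : x = y :=
  Finsupp.ext (fun t => congrFun h t)

/-- The element with given finitely supported coordinates. -/
noncomputable def X0.mk (v : T → ℝ) (hv : FS v) : X0 := Finsupp.ofSupportFinite v hv

lemma X0.val_mk (v : T → ℝ) (hv : FS v) : (X0.mk v hv).val = v := rfl

lemma nrm_zero : nrm (fun _ => 0) = 0 := by
  have := nrm_smul 0 (fun _ => 0)
  simpa using this

noncomputable instance : NormedAddCommGroup X0 :=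
  AddGroupNorm.toNormedAddCommGroup
    { toFun := fun x => nrm x.val
      map_zero' := nrm_zero
      add_le' := fun x y => nrm_add x.fs y.fs
      neg' := fun x => by
        have := nrm_smul (-1) x.val
        simpa [X0.val_neg] using this
      eq_zero_of_map_eq_zero' := fun x hx => by
        apply X0.ext
        funext t
        have := abs_le_nrm x.fs t
        rw [hx] at this
        exact abs_nonpos_iff.1 this }

lemma X0.norm_def (x : X0) : ‖x‖ = nrm x.val := rfl

noncomputable instance : NormedSpace ℝ X0 where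
  norm_smul_le r x := (nrm_smul r x.val).le

/-- Basis vectors. -/
noncomputable def ev (t : T) (a : ℝ) : X0 := X0.mk (Pi.single t a) (FS.single t a)

lemma ev_val (t : T) (a : ℝ) : (ev t a).val = Pi.single t a := rfl

lemma norm_ev_le (t : T) (a : ℝ) : ‖ev t a‖ ≤ |a| := nrm_single_le t a

end Pool.Agent.Lib.MP_102345_an
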